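import Pool.Agent.H20.RO.Defs

/-!
# Module App: the operators Q(E)

PROOFS. `app_hasSum`: finite sum over `k` of `Q.coeff k * hs k` (`hasSum_sum`, `HasSum.mul_left`), and `∑ k, q_k μ ^ (n + k) = Q(μ) μ ^ n` (`Polynomial.eval₂_eq_sum_range`). `app_int`: let `c` be a common denominator of the coefficients of `Q` (product of the `den`s);
`M = c * N`... : `c N D ^ n q_k s (n + k)` is not an integer, because of `D ^ (n + k)`; take `M = c * N * D ^ deg`?? No: `D ^ n s (n + k) = D ^ (n + k) s (n + k) / D ^ k`, so multiply by `D ^ deg Q`: `M = c N D ^ deg Q`,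
`M D ^ n q_k s (n + k) = (c q_k) D ^ (deg - k) (N D ^ (n + k) s (n + k))`. `app_bound`: triangle inequality, `C' = ∑ |q_k| C`. `app_eval_bound`: triangle inequality. `int_of_sq`: `Rat.num`/`den`: `x ^ 2` integer implies `x.den = 1` (`Rat.den_pow`), or `isInteger_of_...`.
-/

set_option autoImplicit false

open Finset Filter Topology

namespace Pool.Agent.H20.RO

theorem app_hasSum {K : Type*} [NormedField K] [CharZero K] {ι : Type*} (Q : Polynomial ℚ)
    (s : ℕ → ℚ) (c μ : ι → K) (n : ℕ)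
    (hs : ∀ k, HasSum (fun i => c i * μ i ^ (n + k)) ((s (n + k) : ℚ) : K)) :
    HasSum (fun i => c i * Q.eval₂ (Rat.castHom K) (μ i) * μ i ^ n) ((app Q s n : ℚ) : K) := by
  have h1 : HasSum (fun i => ∑ k ∈ range (Q.natDegree + 1),
      ((Q.coeff k : ℚ) : K) * (c i * μ i ^ (n + k)))
      (∑ k ∈ range (Q.natDegree + 1), ((Q.coeff k : ℚ) : K) * ((s (n + k) : ℚ) : K)) :=
    hasSum_sum fun k _ => (hs k).mul_left _
  have e1 : ((app Q s n : ℚ) : K) =
      ∑ k ∈ range (Q.natDegree + 1), ((Q.coeff k : ℚ) : K) * ((s (n + k) : ℚ) : K) := by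
    unfold app
    push_cast
    rfl
  have e2 : (fun i => c i * Q.eval₂ (Rat.castHom K) (μ i) * μ i ^ n) = fun i =>
      ∑ k ∈ range (Q.natDegree + 1), ((Q.coeff k : ℚ) : K) * (c i * μ i ^ (n + k)) := by
    funext i
    rw [Polynomial.eval₂_eq_sum_range, Finset.mul_sum, Finset.sum_mul]
    refine Finset.sum_congr rfl fun k _ => ?_
    rw [pow_add, Rat.coe_castHom]
    ring
  rw [e1, e2]
  exact h1

private lemma App_den (q : ℕ → ℚ) (S : Finset ℕ) :
    ∃ c : ℕ, 0 < c ∧ ∀ k ∈ S, ∃ z : ℤ, (c : ℚ) * q k = z := by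
  refine ⟨∏ k ∈ S, (q k).den, Finset.prod_pos fun k _ => (q k).pos, fun k hk => ?_⟩
  obtain ⟨t, ht⟩ := Finset.dvd_prod_of_mem (fun k => (q k).den) hk
  refine ⟨(t : ℤ) * (q k).num, ?_⟩
  rw [ht]
  push_cast
  have h := Rat.mul_den_eq_num (q k)
  calc ((q k).den : ℚ) * (t : ℚ) * q k = (t : ℚ) * (q k * ((q k).den : ℚ)) := by ring
    _ = (t : ℚ) * ((q k).num : ℚ) := by rw [h]

theorem app_int (Q : Polynomial ℚ) {s : ℕ → ℚ} {N D : ℕ} (hN : 0 < N) (hD : 0 < D)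
    (h : ∀ n, ∃ k : ℤ, (N : ℚ) * (D : ℚ) ^ n * s n = k) :
    ∃ M : ℕ, 0 < M ∧ ∀ n, ∃ k : ℤ, (M : ℚ) * (D : ℚ) ^ n * app Q s n = k := by
  obtain ⟨c, hc, hcq⟩ := App_den (fun k => Q.coeff k) (range (Q.natDegree + 1))
  refine ⟨c * N * D ^ Q.natDegree, by positivity, fun n => ?_⟩
  choose! z hz using hcq
  choose w hw using h
  refine ⟨∑ k ∈ range (Q.natDegree + 1), z k * (D : ℤ) ^ (Q.natDegree - k) * w (n + k), ?_⟩
  unfold app
  rw [Finset.mul_sum]
  push_cast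
  refine Finset.sum_congr rfl fun k hk => ?_
  have hk' : k ≤ Q.natDegree := by
    rw [mem_range] at hk
    omega
  rw [← hz k hk, ← hw (n + k)]
  obtain ⟨l, hl⟩ : ∃ l, Q.natDegree = k + l := ⟨Q.natDegree - k, by omega⟩
  rw [hl, Nat.add_sub_cancel_left, pow_add, pow_add]
  ring

theorem app_bound (Q : Polynomial ℚ) {s : ℕ → ℚ} {C : ℝ} (h : ∀ n, |(s n : ℝ)| ≤ C) :
    ∃ C' : ℝ, 0 ≤ C' ∧ ∀ n, |(app Q s n : ℝ)| ≤ C' := by
  have hC : 0 ≤ C := (abs_nonneg _).trans (h 0)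
  refine ⟨∑ k ∈ range (Q.natDegree + 1), |(Q.coeff k : ℝ)| * C,
    Finset.sum_nonneg fun k _ => mul_nonneg (abs_nonneg _) hC, fun n => ?_⟩
  unfold app
  push_cast
  refine (Finset.abs_sum_le_sum_abs _ _).trans (Finset.sum_le_sum fun k _ => ?_)
  rw [abs_mul]
  exact mul_le_mul_of_nonneg_left (h _) (abs_nonneg _)

/-- A polynomial is bounded on the unit ball. -/
theorem eval_bound {K : Type*} [NormedField K] [CharZero K] (Q : Polynomial ℚ) :
    ∃ B : ℝ, 0 ≤ B ∧ ∀ μ : K, ‖μ‖ ≤ 1 → ‖Q.eval₂ (Rat.castHom K) μ‖ ≤ B := by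
  refine ⟨∑ k ∈ range (Q.natDegree + 1), ‖((Q.coeff k : ℚ) : K)‖,
    Finset.sum_nonneg fun k _ => norm_nonneg _, fun μ hμ => ?_⟩
  rw [Polynomial.eval₂_eq_sum_range]
  refine (norm_sum_le _ _).trans (Finset.sum_le_sum fun k _ => ?_)
  rw [norm_mul, norm_pow, Rat.coe_castHom]
  exact mul_le_of_le_one_right (norm_nonneg _) (pow_le_one₀ (norm_nonneg _) hμ)

theorem int_of_sq {x : ℚ} {k : ℤ} (h : x ^ 2 = k) : ∃ j : ℤ, x = j := by
  have h1 : (x ^ 2).den = 1 := by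
    rw [h]
    exact Rat.den_intCast k
  rw [Rat.den_pow] at h1
  have h2 : x.den = 1 := by
    rcases Nat.lt_or_ge x.den 2 with h3 | h3
    · have := x.pos
      omega
    · nlinarith
  exact ⟨x.num, ((Rat.den_eq_one_iff x).1 h2).symm⟩

end Pool.Agent.H20.RO
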