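import Pool.Agent.H20.RO.Defs

/-!
# Module Cat: the integers ee n

`ee 0 = 1`, `ee (n + 1) = -2 catalan n`. `ee_conv`: `n = 0`, `n = 1` by `decide` / `simp`; `n + 2`: the two end terms give `2 * ee (n + 2) = -4 catalan (n + 1)`, the others (`ij = (i + 1, j + 1)`, `i + j = n`) give
`4 * ∑ ij ∈ antidiagonal n, catalan i * catalan j = 4 catalan (n + 1)` (`catalan_succ'`; `Finset.Nat.sum_antidiagonal_succ`, `Finset.Nat.sum_antidiagonal_succ'`).
`ee_neg`: `catalan n > 0` (`succ_mul_catalan_eq_centralBinom`, `Nat.centralBinom_pos`). `ee_abs`: `n + 1`: `2 catalan n ≤ 2 centralBinom n ≤ 2 * 4 ^ n ≤ 4 ^ (n + 1)` (`Nat.centralBinom_le_four_pow`).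
-/

set_option autoImplicit false

open Finset Filter Topology

namespace Pool.Agent.H20.RO

private lemma Cat_pos (n : ℕ) : 0 < catalan n := by
  have h := succ_mul_catalan_eq_centralBinom n
  have h2 := Nat.centralBinom_pos n
  rw [← h] at h2
  exact Nat.pos_of_mul_pos_left h2

private lemma Cat_le (n : ℕ) : catalan n ≤ 4 ^ n := by
  have h := succ_mul_catalan_eq_centralBinom n
  have h3 : Nat.centralBinom n ≤ 4 ^ n := Nat.centralBinom_le_four_pow n
  calc catalan n ≤ (n + 1) * catalan n := Nat.le_mul_of_pos_left _ (Nat.succ_pos n)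
    _ = Nat.centralBinom n := h
    _ ≤ 4 ^ n := h3

theorem ee_conv (n : ℕ) : ∑ ij ∈ antidiagonal n, ee ij.1 * ee ij.2 =
    if n = 0 then 1 else if n = 1 then -4 else 0 := by
  match n with
  | 0 => simp [ee]
  | 1 =>
    rw [Finset.Nat.sum_antidiagonal_succ]
    simp [ee]
  | n + 2 =>
    rw [if_neg (by omega), if_neg (by omega), Finset.Nat.sum_antidiagonal_succ,
      Finset.Nat.sum_antidiagonal_succ']
    have h1 : ∑ p ∈ antidiagonal n, ee (p.1 + 1) * ee (p.2 + 1) = 4 * (catalan (n + 1) : ℤ) := by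
      rw [catalan_succ', Nat.cast_sum, Finset.mul_sum]
      apply Finset.sum_congr rfl
      intro p _
      simp only [ee, Nat.cast_mul]
      ring
    simp only [h1]
    simp only [ee]
    ring

theorem ee_neg {n : ℕ} (hn : n ≠ 0) : ee n < 0 := by
  match n with
  | 0 => exact absurd rfl hn
  | n + 1 =>
    have h : (0 : ℤ) < catalan n := by exact_mod_cast Cat_pos n
    simp only [ee]
    linarith

theorem ee_abs (n : ℕ) : |(ee n : ℝ)| ≤ 4 ^ n := by
  match n with
  | 0 => simp [ee]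
  | n + 1 =>
    have h : (catalan n : ℝ) ≤ 4 ^ n := by exact_mod_cast Cat_le n
    have h0 : (0 : ℝ) ≤ catalan n := by positivity
    simp only [ee]
    push_cast
    rw [abs_mul, abs_neg, abs_of_pos (by norm_num : (0 : ℝ) < 2), abs_of_nonneg h0, pow_succ]
    have h4 : (0 : ℝ) < 4 ^ n := by positivity
    linarith

theorem he_complex (n : ℕ) : ‖(ee n : ℂ)‖ ≤ 4 ^ n := by
  rw [Complex.norm_intCast]
  exact ee_abs n

theorem he_padic (p : ℕ) [Fact p.Prime] (n : ℕ) : ‖(ee n : ℚ_[p])‖ ≤ 4 ^ n := by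
  refine (Padic.norm_int_le_one _).trans ?_
  exact one_le_pow₀ (by norm_num)

end Pool.Agent.H20.RO
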