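import Pool.Agent.H20.RO.Cat

/-!
# Module Cc: infinitely many coefficients are nonzero

PROOF. Power series over `K`: `E a = mk (fun n => ee n * a ^ n)`. `coeff n (E a * E a) = a ^ n * ∑ ee i ee j` (`PowerSeries.coeff_mul`), so `E a * E a = 1 - 4 a X` by `ee_conv`. `G = E a * E b` has coefficients
`cc a b l` (reorder the factors), and `G ^ 2 = (1 - 4 a X) (1 - 4 b X)`. Suppose `cc a b l = 0` for all `l ≥ L`. Then `G = P` for the polynomial `P = G.trunc L` (compare coefficients, `PowerSeries.coeff_trunc`), so `P ^ 2 =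
(1 - C (4 a) X) (1 - C (4 b) X)` in `K[X]` (`Polynomial.coe_injective`, `Polynomial.coe_mul` etc.). Degrees: `natDegree (P ^ 2) = 2 natDegree P ≤ 2`, so `natDegree P ≤ 1`, `P = C u X + C v`
(`Polynomial.exists_eq_X_add_C_of_natDegree_le_one`), `P ^ 2 = u² X² + 2 u v X + v²`; compare the coefficients: `v² = 1`, `2 u v = -4 (a + b)`, `u² = 16 a b`. So `16 (a + b)² = 4 u² v² = 64 a b`, `(a - b)² = 0`.
-/

set_option autoImplicit false

open Finset Filter Topology

namespace Pool.Agent.H20.RO

/-- The power series with the coefficients `ee n * a ^ n`. -/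
private noncomputable def CcE {K : Type*} [Field K] (a : K) : PowerSeries K :=
  PowerSeries.mk fun n => (ee n : K) * a ^ n

private lemma Cc_sq {K : Type*} [Field K] (a : K) :
    CcE a * CcE a = ((1 - Polynomial.C (4 * a) * Polynomial.X : Polynomial K) : PowerSeries K) := by
  ext n
  rw [PowerSeries.coeff_mul, Polynomial.coeff_coe]
  have h1 : ∀ p ∈ antidiagonal n, PowerSeries.coeff p.1 (CcE a) * PowerSeries.coeff p.2 (CcE a) =
      a ^ n * ((ee p.1 * ee p.2 : ℤ) : K) := by
    intro p hp
    have hpn : p.1 + p.2 = n := mem_antidiagonal.1 hp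
    simp only [CcE, PowerSeries.coeff_mk]
    rw [← hpn, pow_add]
    push_cast
    ring
  rw [Finset.sum_congr rfl h1, ← Finset.mul_sum, ← Int.cast_sum, ee_conv]
  rw [Polynomial.coeff_sub, Polynomial.coeff_one, Polynomial.coeff_C_mul, Polynomial.coeff_X]
  by_cases h0 : n = 0
  · subst h0
    simp
  · by_cases h2 : n = 1
    · subst h2
      simp
      ring
    · rw [if_neg h0, if_neg h2, if_neg h0, if_neg (fun h => h2 h.symm)]
      simp

private lemma Cc_coeff {K : Type*} [Field K] (a b : K) (l : ℕ) :
    PowerSeries.coeff l (CcE a * CcE b) = cc a b l := by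
  rw [PowerSeries.coeff_mul, cc]
  apply Finset.sum_congr rfl
  intro p _
  simp only [CcE, PowerSeries.coeff_mk]
  ring

private lemma Cc_co {K : Type*} [Field K] (p q r : K) :
    (Polynomial.C p * Polynomial.X ^ 2 + Polynomial.C q * Polynomial.X +
      Polynomial.C r).coeff 0 = r ∧
    (Polynomial.C p * Polynomial.X ^ 2 + Polynomial.C q * Polynomial.X +
      Polynomial.C r).coeff 1 = q ∧
    (Polynomial.C p * Polynomial.X ^ 2 + Polynomial.C q * Polynomial.X +
      Polynomial.C r).coeff 2 = p := by
  refine ⟨?_, ?_, ?_⟩ <;>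
    simp [Polynomial.coeff_X, Polynomial.coeff_C, Polynomial.coeff_X_pow]

theorem cc_inf {K : Type*} [Field K] [CharZero K] {a b : K} (hab : a ≠ b) (L : ℕ) :
    ∃ l ≥ L, cc a b l ≠ 0 := by
  by_contra hcon
  push Not at hcon
  set P : Polynomial K := PowerSeries.trunc L (CcE a * CcE b) with hP
  have hPG : (P : PowerSeries K) = CcE a * CcE b := by
    ext l
    rw [Polynomial.coeff_coe, hP, PowerSeries.coeff_trunc]
    by_cases hl : l < L
    · rw [if_pos hl]
    · rw [if_neg hl, Cc_coeff, hcon l (not_lt.1 hl)]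
  have hsq : P * P = (1 - Polynomial.C (4 * a) * Polynomial.X) *
      (1 - Polynomial.C (4 * b) * Polynomial.X) := by
    apply Polynomial.coe_injective K
    rw [Polynomial.coe_mul, Polynomial.coe_mul, hPG, ← Cc_sq, ← Cc_sq]
    ring
  have hdeg : P.natDegree ≤ 1 := by
    have h1 : (P * P).natDegree = P.natDegree + P.natDegree := by
      by_cases hP0 : P = 0
      · simp [hP0]
      · exact Polynomial.natDegree_mul hP0 hP0
    have h2 : (P * P).natDegree ≤ 2 := by
      rw [hsq]
      refine Polynomial.natDegree_mul_le.trans ?_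
      have h3 : ∀ c : K, (1 - Polynomial.C c * Polynomial.X : Polynomial K).natDegree ≤ 1 := by
        intro c
        refine (Polynomial.natDegree_sub_le _ _).trans ?_
        rw [Polynomial.natDegree_one]
        exact max_le (Nat.zero_le _) ((Polynomial.natDegree_C_mul_le _ _).trans
          Polynomial.natDegree_X_le)
      have h4 := h3 (4 * a)
      have h5 := h3 (4 * b)
      omega
    omega
  obtain ⟨u, v, huv⟩ := Polynomial.exists_eq_X_add_C_of_natDegree_le_one hdeg
  have hexp : P * P = Polynomial.C (u * u) * Polynomial.X ^ 2 +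
      Polynomial.C (2 * u * v) * Polynomial.X + Polynomial.C (v * v) := by
    rw [huv]
    simp only [map_mul, map_ofNat]
    ring
  have hexp2 : P * P = Polynomial.C (16 * a * b) * Polynomial.X ^ 2 +
      Polynomial.C (-4 * (a + b)) * Polynomial.X + Polynomial.C 1 := by
    rw [hsq]
    simp only [map_mul, map_neg, map_add, map_ofNat, map_one]
    ring
  have heq := hexp.symm.trans hexp2
  have e0 : v * v = 1 := by
    have h := congrArg (fun Q => Polynomial.coeff Q 0) heq
    rwa [(Cc_co _ _ _).1, (Cc_co _ _ _).1] at h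
  have e1 : 2 * u * v = -4 * (a + b) := by
    have h := congrArg (fun Q => Polynomial.coeff Q 1) heq
    rwa [(Cc_co _ _ _).2.1, (Cc_co _ _ _).2.1] at h
  have e2 : u * u = 16 * a * b := by
    have h := congrArg (fun Q => Polynomial.coeff Q 2) heq
    rwa [(Cc_co _ _ _).2.2, (Cc_co _ _ _).2.2] at h
  have hfin : 16 * (a - b) ^ 2 = 0 := by
    have h1 : (2 * u * v) ^ 2 = 4 * (u * u) * (v * v) := by ring
    rw [e1, e2, e0] at h1
    linear_combination h1
  have h16 : (16 : K) ≠ 0 := by norm_num
  have h2 : (a - b) ^ 2 = 0 := (mul_eq_zero.1 hfin).resolve_left h16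
  exact hab (sub_eq_zero.1 (pow_eq_zero_iff (two_ne_zero) |>.1 h2))

end Pool.Agent.H20.RO
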