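import Pool.Agent.H20.RO.Defs

/-!
# Module Ces: sums of characters that tend to zero

PROOF. Put `a k = ∑ i ∈ F, g i * ω i ^ k → 0`. The means `(1/K) ∑ k < K, a k * (u⁻¹) ^ k` tend to `0` (`Filter.Tendsto.cesaro`; `‖u⁻¹‖ = 1`). On the other hand they are `∑ i ∈ F, g i * (1/K) ∑ k < K, (ω i / u) ^ k`; for `ω i = u` the inner mean is `1`, for `ω i ≠ u` its norm is
`≤ 2 / (K ‖ω i / u - 1‖) → 0` (`geom_sum_eq`). So the limit is `∑ i ∈ F with ω i = u, g i`. Uniqueness of limits.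
-/

set_option autoImplicit false

open Finset Filter Topology

namespace Pool.Agent.H20.RO

private lemma Ces_geo (z : ℂ) (hz : ‖z‖ = 1) :
    Tendsto (fun K : ℕ => (K : ℝ)⁻¹ • ∑ k ∈ range K, z ^ k) atTop (𝓝 (if z = 1 then 1 else 0)) := by
  by_cases h : z = 1
  · rw [if_pos h]
    refine tendsto_const_nhds.congr' ?_
    filter_upwards [eventually_gt_atTop 0] with K hK
    have hK' : (K : ℂ) ≠ 0 := Nat.cast_ne_zero.2 hK.ne'
    rw [h]
    simp only [one_pow, sum_const, card_range, nsmul_eq_mul, mul_one, Complex.real_smul,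
      Complex.ofReal_inv, Complex.ofReal_natCast]
    rw [inv_mul_cancel₀ hK']
  · rw [if_neg h]
    have hz1 : 0 < ‖z - 1‖ := norm_pos_iff.2 (sub_ne_zero.2 h)
    have hlim : Tendsto (fun K : ℕ => (K : ℝ)⁻¹ * (2 / ‖z - 1‖)) atTop (𝓝 0) := by
      have h1 := (tendsto_inv_atTop_nhds_zero_nat (𝕜 := ℝ)).mul_const (2 / ‖z - 1‖)
      rwa [zero_mul] at h1
    refine squeeze_zero_norm (fun K => ?_) hlim
    have hK : 0 ≤ (K : ℝ)⁻¹ := inv_nonneg.2 (Nat.cast_nonneg K)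
    rw [geom_sum_eq h, norm_smul, Real.norm_of_nonneg hK, norm_div]
    refine mul_le_mul_of_nonneg_left ?_ hK
    refine div_le_div_of_nonneg_right ?_ hz1.le
    calc ‖z ^ K - 1‖ ≤ ‖z ^ K‖ + ‖(1 : ℂ)‖ := norm_sub_le _ _
      _ = 2 := by
        rw [norm_pow, hz, one_pow, norm_one]
        norm_num

theorem ces {ι : Type*} (F : Finset ι) (g ω : ι → ℂ) (hω : ∀ i ∈ F, ‖ω i‖ = 1)
    (h : Tendsto (fun k : ℕ => ∑ i ∈ F, g i * ω i ^ k) atTop (𝓝 0)) (u : ℂ) (hu : ‖u‖ = 1) :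
    ∑ i ∈ F with ω i = u, g i = 0 := by
  have hu0 : u ≠ 0 := by
    rintro rfl
    rw [norm_zero] at hu
    exact zero_ne_one hu
  have h1 : Tendsto (fun k : ℕ => (∑ i ∈ F, g i * ω i ^ k) * u⁻¹ ^ k) atTop (𝓝 0) := by
    refine squeeze_zero_norm (fun k => ?_) (tendsto_zero_iff_norm_tendsto_zero.1 h)
    rw [norm_mul, norm_pow, norm_inv, hu, inv_one, one_pow, mul_one]
  have h2 := h1.cesaro_smul
  have h3 : ∀ K : ℕ, (K : ℝ)⁻¹ • ∑ k ∈ range K, (∑ i ∈ F, g i * ω i ^ k) * u⁻¹ ^ k =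
      ∑ i ∈ F, g i * ((K : ℝ)⁻¹ • ∑ k ∈ range K, (ω i / u) ^ k) := by
    intro K
    have e1 : ∑ k ∈ range K, (∑ i ∈ F, g i * ω i ^ k) * u⁻¹ ^ k =
        ∑ i ∈ F, g i * ∑ k ∈ range K, (ω i / u) ^ k := by
      simp only [sum_mul, mul_sum]
      rw [sum_comm]
      refine sum_congr rfl fun i _ => sum_congr rfl fun k _ => ?_
      rw [div_eq_mul_inv, mul_pow, mul_assoc]
    rw [e1, smul_sum]
    refine sum_congr rfl fun i _ => ?_
    rw [mul_smul_comm]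
  have h4 : Tendsto (fun K : ℕ => ∑ i ∈ F, g i * ((K : ℝ)⁻¹ • ∑ k ∈ range K, (ω i / u) ^ k)) atTop
      (𝓝 (∑ i ∈ F, g i * (if ω i / u = 1 then 1 else 0))) := by
    refine tendsto_finsetSum F fun i hi => ?_
    refine (Ces_geo (ω i / u) ?_).const_mul (g i)
    rw [norm_div, hω i hi, hu, div_one]
  have h5 : ∑ i ∈ F, g i * (if ω i / u = 1 then 1 else 0) = 0 := by
    refine tendsto_nhds_unique h4 ?_
    refine h2.congr fun K => ?_
    exact h3 K
  rw [← h5, sum_filter]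
  refine sum_congr rfl fun i _ => ?_
  by_cases hi : ω i = u
  · rw [if_pos hi, if_pos ((div_eq_one_iff_eq hu0).2 hi), mul_one]
  · rw [if_neg hi, if_neg fun h6 => hi ((div_eq_one_iff_eq hu0).1 h6), mul_zero]

end Pool.Agent.H20.RO
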