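import Mathlib

/-!
# Rational distance sets and similarities (MP_f77932_co): definitions

Main result of the folder: a rational distance set of the plane that contains an infinite orbit
`z, T z, T (T z), ...` of a similarity `T` is contained in a line, or in a circle together with its
centre.
-/

set_option autoImplicit false

open Finset

namespace Pool.Agent.H20.RO

/-- All distances between points of `S` are rational. -/
def RatDist (S : Set ℂ) : Prop := ∀ z ∈ S, ∀ w ∈ S, ∃ r : ℚ, dist z w = r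

/-- `T` is a similarity of the plane: `z ↦ a z + b` or `z ↦ a z̄ + b` with `a ≠ 0`. -/
def IsSim (T : ℂ → ℂ) : Prop :=
  ∃ a b : ℂ, a ≠ 0 ∧ ((∀ z, T z = a * z + b) ∨ (∀ z, T z = a * (starRingEnd ℂ) z + b))

/-- `S` is contained in a line. -/
def OnLine (S : Set ℂ) : Prop := ∃ p v : ℂ, v ≠ 0 ∧ ∀ z ∈ S, ∃ t : ℝ, z = p + t * v

/-- `S` is contained in the union of a circle and its centre. -/
def OnCircle (S : Set ℂ) : Prop := ∃ (c : ℂ) (r : ℝ), 0 < r ∧ ∀ z ∈ S, z = c ∨ dist z c = r

/-- Coefficients of the power series `√(1 - 4 X)`. -/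
def ee : ℕ → ℤ
  | 0 => 1
  | n + 1 => -2 * (catalan n : ℤ)

/-- Coefficients of the power series `√((1 - 4 a X) (1 - 4 b X))`. -/
def cc {K : Type*} [Field K] (a b : K) (l : ℕ) : K :=
  ∑ ij ∈ antidiagonal l, (ee ij.1 : K) * (ee ij.2 : K) * (a ^ ij.1 * b ^ ij.2)

/-- The operator `Q(E)`, `E` the shift, on sequences of rational numbers. -/
noncomputable def app (Q : Polynomial ℚ) (s : ℕ → ℚ) (n : ℕ) : ℚ :=
  ∑ k ∈ range (Q.natDegree + 1), Q.coeff k * s (n + k)

end Pool.Agent.H20.RO
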