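import Pool.Agent.H20.RO.Defs

/-!
# Module Lead: the leading term of a series in a small variable

PROOF. If `R ‖y‖ ≤ 1/2` then `∑' l, f l * y ^ l` converges absolutely, the terms `l < m` vanish and the norm of the part `l > m` is `≤ 2 A (R ‖y‖) ^ (m + 1)` (geometric series; `A ≥ 0` because `0 ≤ ‖f 0‖ ≤ A`). For `y = x ^ n`, `n` large: `R ‖x‖ ^ n ≤ 1/2` and
`2 A R ^ (m + 1) ‖x‖ ^ n < ‖f m‖`, so the tail is `< ‖f m‖ ‖y‖ ^ m` (`y ≠ 0`). Hence the sum is not zero and has norm `≤ 2 ‖f m‖ ‖y‖ ^ m`.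
-/

set_option autoImplicit false

open Finset Filter Topology

namespace Pool.Agent.H20.RO

theorem lead {K : Type*} [NormedField K] [CompleteSpace K] {f : ℕ → K} {A R : ℝ} (hR : 0 ≤ R)
    (hf : ∀ l, ‖f l‖ ≤ A * R ^ l) {m : ℕ} (h0 : ∀ l < m, f l = 0) (hm : f m ≠ 0) {x : K}
    (hx0 : x ≠ 0) (hx : ‖x‖ < 1) :
    ∃ n0 : ℕ, ∀ n ≥ n0, ∀ v : K, HasSum (fun l => f l * (x ^ n) ^ l) v →
      v ≠ 0 ∧ ‖v‖ ≤ 2 * ‖f m‖ * (‖x‖ ^ n) ^ m := by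
  have hA : 0 ≤ A := by
    have h := hf 0
    rw [pow_zero, mul_one] at h
    exact le_trans (norm_nonneg _) h
  have hfm : 0 < ‖f m‖ := norm_pos_iff.mpr hm
  have hlim : Tendsto (fun n : ℕ => ‖x‖ ^ n) atTop (𝓝 0) :=
    tendsto_pow_atTop_nhds_zero_of_lt_one (norm_nonneg _) hx
  have hlim1 : Tendsto (fun n : ℕ => R * ‖x‖ ^ n) atTop (𝓝 0) := by
    simpa using hlim.const_mul R
  have hlim2 : Tendsto (fun n : ℕ => 2 * A * R ^ (m + 1) * ‖x‖ ^ n) atTop (𝓝 0) := by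
    simpa using hlim.const_mul (2 * A * R ^ (m + 1))
  have e1 := hlim1.eventually (gt_mem_nhds (show (0 : ℝ) < 1 / 2 by norm_num))
  have e2 := hlim2.eventually (gt_mem_nhds hfm)
  obtain ⟨n0, hn0⟩ := Filter.eventually_atTop.mp (e1.and e2)
  refine ⟨n0, fun n hn v hv => ?_⟩
  obtain ⟨h1, h2⟩ := hn0 n hn
  set y : K := x ^ n with hy
  have hyn : ‖y‖ = ‖x‖ ^ n := by rw [hy, norm_pow]
  rw [← hyn] at h1 h2 ⊢
  have hy0 : y ≠ 0 := pow_ne_zero _ hx0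
  have hypos : 0 < ‖y‖ := norm_pos_iff.mpr hy0
  have hRy : 0 ≤ R * ‖y‖ := mul_nonneg hR (norm_nonneg _)
  have hsplit := hv.summable.sum_add_tsum_nat_add (m + 1)
  rw [hv.tsum_eq, Finset.sum_range_succ, Finset.sum_eq_zero (fun i hi => by
    rw [h0 i (Finset.mem_range.mp hi), zero_mul]), zero_add] at hsplit
  set t : K := ∑' i, f (i + (m + 1)) * y ^ (i + (m + 1)) with ht
  have htb : ‖t‖ ≤ A * (R * ‖y‖) ^ (m + 1) * (1 - R * ‖y‖)⁻¹ := by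
    refine tsum_of_norm_bounded
      ((hasSum_geometric_of_lt_one hRy (by linarith)).mul_left (A * (R * ‖y‖) ^ (m + 1)))
      (fun i => ?_)
    rw [norm_mul, norm_pow]
    calc ‖f (i + (m + 1))‖ * ‖y‖ ^ (i + (m + 1))
        ≤ (A * R ^ (i + (m + 1))) * ‖y‖ ^ (i + (m + 1)) :=
          mul_le_mul_of_nonneg_right (hf _) (pow_nonneg (norm_nonneg _) _)
      _ = A * (R * ‖y‖) ^ (m + 1) * (R * ‖y‖) ^ i := by
          rw [mul_pow, mul_pow, pow_add, pow_add]; ring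
  have hinv : (1 - R * ‖y‖)⁻¹ ≤ 2 := by
    rw [show (2 : ℝ) = (1 / 2)⁻¹ by norm_num]
    exact inv_anti₀ (by norm_num) (by linarith)
  have htb2 : ‖t‖ < ‖f m‖ * ‖y‖ ^ m := by
    calc ‖t‖ ≤ A * (R * ‖y‖) ^ (m + 1) * (1 - R * ‖y‖)⁻¹ := htb
      _ ≤ A * (R * ‖y‖) ^ (m + 1) * 2 :=
          mul_le_mul_of_nonneg_left hinv (mul_nonneg hA (pow_nonneg hRy _))
      _ = (2 * A * R ^ (m + 1) * ‖y‖) * ‖y‖ ^ m := by
          rw [mul_pow]; ring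
      _ < ‖f m‖ * ‖y‖ ^ m := mul_lt_mul_of_pos_right h2 (pow_pos hypos _)
  have hmain : ‖f m * y ^ m‖ = ‖f m‖ * ‖y‖ ^ m := by rw [norm_mul, norm_pow]
  refine ⟨fun h => ?_, ?_⟩
  · rw [h] at hsplit
    have h3 : f m * y ^ m = -t := eq_neg_of_add_eq_zero_left hsplit
    rw [h3, norm_neg] at hmain
    linarith
  · rw [← hsplit]
    calc ‖f m * y ^ m + t‖ ≤ ‖f m * y ^ m‖ + ‖t‖ := norm_add_le _ _
      _ ≤ ‖f m‖ * ‖y‖ ^ m + ‖f m‖ * ‖y‖ ^ m := by rw [hmain]; linarith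
      _ = 2 * ‖f m‖ * ‖y‖ ^ m := by ring

end Pool.Agent.H20.RO
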