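import Pool.Agent.H20.RO.MainA

/-!
# Module Main: main theorem

PROOF. `main`: if `T u = a ū + b`, then `T (T u) = (a ā) u + (a b̄ + b)`, the orbit of `z` under `T²` is infinite (otherwise the orbit of `T`, the union of it and its image under `T`, is finite) and is contained in `S`: `main_aff`. `main_dense`: see the text in Dens.
-/

set_option autoImplicit false

open Finset Filter Topology

namespace Pool.Agent.H20.RO

theorem main {S : Set ℂ} (hS : RatDist S) {T : ℂ → ℂ} (hT : IsSim T) {z : ℂ}
    (horb : ∀ n : ℕ, T^[n] z ∈ S) (hinf : (Set.range fun n : ℕ => T^[n] z).Infinite) :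
    OnLine S ∨ OnCircle S := by
  obtain ⟨a, b, ha, h⟩ := hT
  rcases h with h | h
  · have hTe : T = fun u => a * u + b := funext h
    subst hTe
    exact main_aff hS ha horb hinf
  · have h2 : ∀ n : ℕ, (fun u => (a * (starRingEnd ℂ) a) * u + (a * (starRingEnd ℂ) b + b))^[n] z
        = T^[2 * n] z := by
      intro n
      have hTT : (fun u => (a * (starRingEnd ℂ) a) * u + (a * (starRingEnd ℂ) b + b)) = T^[2] := by
        funext u
        simp only [Function.iterate_succ, Function.iterate_zero, Function.comp, id, h, map_add,
          map_mul, Complex.conj_conj]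
        ring
      rw [hTT, ← Function.iterate_mul]
    have ha' : a * (starRingEnd ℂ) a ≠ 0 :=
      mul_ne_zero ha ((map_ne_zero _).2 ha)
    refine main_aff hS (z := z) ha' (b := a * (starRingEnd ℂ) b + b) ?_ ?_
    · intro n
      rw [h2 n]
      exact horb _
    · intro hfin
      refine hinf ((hfin.union (hfin.image T)).subset ?_)
      rintro _ ⟨n, rfl⟩
      rcases Nat.even_or_odd' n with ⟨m, rfl | rfl⟩
      · left
        exact ⟨m, h2 m⟩
      · right
        refine ⟨T^[2 * m] z, ⟨m, h2 m⟩, ?_⟩
        change T (T^[2 * m] z) = T^[2 * m + 1] z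
        rw [Function.iterate_succ_apply']

end Pool.Agent.H20.RO
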