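import Pool.Agent.H20.RO.PMain

/-!
# Module PRat: rotations

PROOF. `R = ‖z‖ > 0`. `R ‖λ - 1‖ = r1`, `R ‖λ² - 1‖ = r2` rational (`hzz 1 0`, `hzz 2 0`), `λ ≠ 1`, so `‖λ + 1‖ = r2 / r1`, `t = λ + λ̄ = ‖λ + 1‖² - 2` rational, `‖λ - 1‖² = 2 - t > 0`, `R² = r1² / (2 - t)` rational. `λ λ̄ = 1`. `-2 < t < 2` (`λ ≠ ± 1`; `|Re λ| < 1`). If `t.den = 1` then `t ∈ {-1, 0, 1}` and `λ³ = 1`, `λ⁴ = 1` or `λ⁶ = 1`
(`λ² = t λ - 1`), excluded by `hno`. Put `s n = ‖λ ^ n z - w‖` (rational), `A = R² + ‖w‖²`, `y n = A - s n ^ 2 = 2 Re (λ ^ n z w̄) = λ ^ n z w̄ + λ̄ ^ n z̄ w` (real). `y (n + 2) = t y (n + 1) - y n`. `A` is rational: `s 2 ^ 2 - t s 1 ^ 2 + s 0 ^ 2 = (2 - t) A`. So `y n`, `‖w‖² = A - R²` are rational. `hdisc`: with `α = z w̄`, `β = z̄ w`,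
`y 0 = α + β`, `y 1 = α λ + β λ̄`: `y 1² - t y 0 y 1 + y 0² = (4 - t²) α β` (`λ λ̄ = 1`, `t = λ + λ̄`: field computation), `α β = R² ‖w‖²`. `|s n| ≤ ‖z‖ + ‖w‖`. `pad_core`: `R² = ‖w‖²`.
-/

set_option autoImplicit false

open Finset Filter Topology

namespace Pool.Agent.H20.RO

private theorem PRat_sq (x : ℂ) : ‖x‖ ^ 2 = x.re ^ 2 + x.im ^ 2 := by
  rw [← Complex.normSq_eq_norm_sq, Complex.normSq_apply]; ring

theorem rotation {lam z w : ℂ} (h1 : ‖lam‖ = 1) (hno : ∀ n : ℕ, 1 ≤ n → lam ^ n ≠ 1) (hz : z ≠ 0)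
    (hw : w ≠ 0) (hzz : ∀ n m : ℕ, ∃ r : ℚ, ‖lam ^ n * z - lam ^ m * z‖ = r)
    (hzw : ∀ n : ℕ, ∃ r : ℚ, ‖lam ^ n * z - w‖ = r) : ‖w‖ = ‖z‖ := by
  have hab : lam.re ^ 2 + lam.im ^ 2 = 1 := by rw [← PRat_sq, h1]; norm_num
  have hl2 : lam ^ 2 = (2 * lam.re : ℝ) * lam - 1 := by
    apply Complex.ext
    · simp [pow_two]; nlinarith [hab]
    · simp [pow_two]; ring
  have hne1 : lam ≠ 1 := fun h => hno 1 le_rfl (by rw [h, one_pow])
  have hnem : lam ≠ -1 := fun h => hno 2 (by norm_num) (by rw [h]; norm_num)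
  have hm : ‖lam - 1‖ ^ 2 = 2 - 2 * lam.re := by
    rw [PRat_sq]; simp; nlinarith [hab]
  have hp : ‖lam + 1‖ ^ 2 = 2 + 2 * lam.re := by
    rw [PRat_sq]; simp; nlinarith [hab]
  have hm0 : 0 < 2 - 2 * lam.re := by
    rw [← hm]; exact pow_pos (norm_pos_iff.mpr (sub_ne_zero.mpr hne1)) 2
  have hp0 : 0 < 2 + 2 * lam.re := by
    rw [← hp]; exact pow_pos (norm_pos_iff.mpr (fun h => hnem (eq_neg_of_add_eq_zero_left h))) 2
  have hR0 : 0 < ‖z‖ := norm_pos_iff.mpr hz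
  have hW0 : 0 < ‖w‖ := norm_pos_iff.mpr hw
  obtain ⟨r1, hr1⟩ := hzz 1 0
  obtain ⟨r2, hr2⟩ := hzz 2 0
  have e1 : (r1 : ℝ) ^ 2 = (2 - 2 * lam.re) * ‖z‖ ^ 2 := by
    rw [← hr1, show lam ^ 1 * z - lam ^ 0 * z = (lam - 1) * z by ring, norm_mul, mul_pow, hm]
  have e2 : (r2 : ℝ) ^ 2 = (2 - 2 * lam.re) * (2 + 2 * lam.re) * ‖z‖ ^ 2 := by
    rw [← hr2, show lam ^ 2 * z - lam ^ 0 * z = (lam - 1) * (lam + 1) * z by ring, norm_mul,
      norm_mul, mul_pow, mul_pow, hm, hp]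
  have hr1p : (0 : ℝ) < (r1 : ℝ) ^ 2 := by rw [e1]; positivity
  obtain ⟨t, ht⟩ : ∃ t : ℚ, (t : ℝ) = 2 * lam.re := by
    refine ⟨r2 ^ 2 / r1 ^ 2 - 2, ?_⟩
    push_cast
    rw [sub_eq_iff_eq_add, div_eq_iff hr1p.ne', e1, e2]; ring
  rw [← ht] at hl2 hm0 hp0 e1
  obtain ⟨R2, hR2⟩ : ∃ R2 : ℚ, (R2 : ℝ) = ‖z‖ ^ 2 := by
    refine ⟨r1 ^ 2 / (2 - t), ?_⟩
    push_cast
    rw [div_eq_iff hm0.ne', e1]; ring
  choose s hs using hzw
  have hsq : ∀ n, (s n : ℝ) ^ 2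
      = ‖z‖ ^ 2 + ‖w‖ ^ 2 - 2 * (lam ^ n * (z * (starRingEnd ℂ) w)).re := by
    intro n
    have h3 : ‖lam ^ n * z‖ ^ 2 = ‖z‖ ^ 2 := by rw [norm_mul, norm_pow, h1, one_pow, one_mul]
    have h4 : (lam ^ n * (z * (starRingEnd ℂ) w)).re
        = (lam ^ n * z).re * w.re + (lam ^ n * z).im * w.im := by
      rw [← mul_assoc, Complex.mul_re]; simp
    rw [← hs n, h4, ← h3, PRat_sq, PRat_sq (lam ^ n * z), PRat_sq w]
    simp only [Complex.sub_re, Complex.sub_im]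
    ring
  have hY : ∀ n, (lam ^ (n + 2) * (z * (starRingEnd ℂ) w)).re
      = t * (lam ^ (n + 1) * (z * (starRingEnd ℂ) w)).re
        - (lam ^ n * (z * (starRingEnd ℂ) w)).re := by
    intro n
    have h5 : lam ^ (n + 2) * (z * (starRingEnd ℂ) w)
        = (t : ℝ) * (lam ^ (n + 1) * (z * (starRingEnd ℂ) w))
          - lam ^ n * (z * (starRingEnd ℂ) w) := by
      rw [pow_add, hl2, pow_succ]; ring
    rw [h5, Complex.sub_re, Complex.re_ofReal_mul]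
  obtain ⟨A, hA⟩ : ∃ A : ℚ, (A : ℝ) = ‖z‖ ^ 2 + ‖w‖ ^ 2 := by
    refine ⟨(s 2 ^ 2 - t * s 1 ^ 2 + s 0 ^ 2) / (2 - t), ?_⟩
    push_cast
    rw [div_eq_iff hm0.ne', hsq 2, hsq 1, hsq 0]
    have h6 := hY 0
    simp only [zero_add] at h6
    rw [h6]; ring
  have hW2 : ((A - R2 : ℚ) : ℝ) = ‖w‖ ^ 2 := by push_cast; rw [hA, hR2]; ring
  have hy : ∀ n, ((A - s n ^ 2 : ℚ) : ℝ) = 2 * (lam ^ n * (z * (starRingEnd ℂ) w)).re := by
    intro n; push_cast; rw [hA, hsq n]; ring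
  have hden : t.den ≠ 1 := by
    intro hd
    have h7 : ((t.num : ℤ) : ℚ) = t := by
      conv_rhs => rw [← Rat.num_div_den t, hd]
      simp
    have h8 : ((t.num : ℤ) : ℝ) = t := by exact_mod_cast congrArg (fun x : ℚ => (x : ℝ)) h7
    have h9 : t.num < 2 := by
      have : ((t.num : ℤ) : ℝ) < 2 := by rw [h8]; linarith
      exact_mod_cast this
    have h10 : -2 < t.num := by
      have : (-2 : ℝ) < ((t.num : ℤ) : ℝ) := by rw [h8]; linarith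
      exact_mod_cast this
    have h11 : ((t : ℝ) : ℂ) = ((t.num : ℤ) : ℂ) := by rw [← h8]; simp
    rw [h11] at hl2
    have h12 : t.num = -1 ∨ t.num = 0 ∨ t.num = 1 := by omega
    rcases h12 with h | h | h
    · rw [h] at hl2
      refine hno 3 (by norm_num) ?_
      calc lam ^ 3 = lam * lam ^ 2 := by ring
        _ = 1 := by
          rw [hl2]; push_cast
          linear_combination (-1 : ℂ) * hl2 + (by push_cast; ring : (0:ℂ) = 0)
    · rw [h] at hl2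
      refine hno 4 (by norm_num) ?_
      calc lam ^ 4 = lam ^ 2 * lam ^ 2 := by ring
        _ = 1 := by rw [hl2]; push_cast; ring
    · rw [h] at hl2
      refine hno 6 (by norm_num) ?_
      have h13 : lam ^ 3 = -1 := by
        calc lam ^ 3 = lam * lam ^ 2 := by ring
          _ = -1 := by
            rw [hl2]; push_cast
            linear_combination hl2
      calc lam ^ 6 = lam ^ 3 * lam ^ 3 := by ring
        _ = 1 := by rw [h13]; ring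
  have hfin : R2 = A - R2 := by
    refine pad_core (t := t) hden ?_ ?_ (y := fun n => A - s n ^ 2) (s := s) ?_ ?_ ?_ ?_
    · have : (0 : ℝ) < R2 := by rw [hR2]; positivity
      exact_mod_cast this
    · have : (0 : ℝ) < ((A - R2 : ℚ) : ℝ) := by rw [hW2]; positivity
      exact_mod_cast this
    · intro n
      have : ((A - s (n + 2) ^ 2 : ℚ) : ℝ)
          = ((t * (A - s (n + 1) ^ 2) - (A - s n ^ 2) : ℚ) : ℝ) := by
        rw [Rat.cast_sub (t * (A - s (n + 1) ^ 2)), Rat.cast_mul, hy, hy, hy, hY n]; ring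
      exact_mod_cast this
    · intro n; ring
    · refine ⟨‖z‖ + ‖w‖, fun n => ?_⟩
      rw [← hs n, abs_norm]
      refine (norm_sub_le _ _).trans ?_
      rw [norm_mul, norm_pow, h1, one_pow, one_mul]
    · have h14 : (((A - s 1 ^ 2) ^ 2 - t * (A - s 0 ^ 2) * (A - s 1 ^ 2) + (A - s 0 ^ 2) ^ 2 : ℚ) : ℝ)
          = (((4 - t ^ 2) * (R2 * (A - R2)) : ℚ) : ℝ) := by
        rw [Rat.cast_add, Rat.cast_sub, Rat.cast_pow, Rat.cast_mul, Rat.cast_mul, Rat.cast_pow,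
          hy, hy, Rat.cast_mul, Rat.cast_mul R2, hW2, hR2, PRat_sq z, PRat_sq w]
        push_cast
        rw [ht]
        have h15 : lam.im ^ 2 = 1 - lam.re ^ 2 := by linarith
        simp only [pow_zero, pow_one, one_mul, Complex.mul_re, Complex.mul_im, Complex.conj_re,
          Complex.conj_im]
        ring_nf
        rw [h15]
        ring
      exact_mod_cast h14
  have h16 : ‖w‖ ^ 2 = ‖z‖ ^ 2 := by
    rw [← hW2, ← hR2, ← hfin]
  exact (pow_left_inj₀ hW0.le hR0.le (by norm_num)).mp h16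

end Pool.Agent.H20.RO
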