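import Pool.Agent.H20.RO.App

/-!
# Module SInt: denominators, spiral

PROOF. `‖λ ^ k - 1‖² = 1 - T k + r2 ^ k`, `T k = λ ^ k + λ̄ ^ k` rational, `T 0 = 2`, `T 1 = t`, `T (k + 2) = t T (k + 1) - r2 T k`. `D = t.den * r2.den`: `D ^ k T k` and `D ^ k r2 ^ k` are integers (induction; `D t`, `D r2`, `D² r2` are integers). `κ²` is rational: `s 1 ^ 2 = κ² (1 - t + r2)`,
`1 - t + r2 = ‖λ - 1‖² ≠ 0`. Let `c > 0` be the denominator of `κ²`: `(c D ^ k s k)² = c (c κ²) D ^ (2k) (1 - T k + r2 ^ k)` is an integer; `int_of_sq`, `N = c`.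
-/

set_option autoImplicit false

open Finset Filter Topology

namespace Pool.Agent.H20.RO

private theorem SInt_trace {lam : ℂ} {t r2 : ℚ} (ht : lam + (starRingEnd ℂ) lam = t)
    (hr : lam * (starRingEnd ℂ) lam = r2) {D : ℕ} {e f : ℤ} (he : (D : ℚ) * t = e)
    (hf : (D : ℚ) * r2 = f) :
    ∀ k : ℕ, ∃ a : ℤ, (D : ℂ) ^ k * (lam ^ k + (starRingEnd ℂ) lam ^ k) = a := by
  intro k
  induction k using Nat.twoStepInduction with
  | zero => exact ⟨2, by norm_num⟩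
  | one =>
    refine ⟨e, ?_⟩
    have he' : ((D : ℂ)) * (t : ℂ) = e := by exact_mod_cast congrArg (fun q : ℚ => (q : ℂ)) he
    rw [pow_one, pow_one, pow_one, ht, he']
  | more k ih1 ih2 =>
    obtain ⟨a, ha⟩ := ih1
    obtain ⟨b, hb⟩ := ih2
    have he' : ((D : ℂ)) * (t : ℂ) = e := by exact_mod_cast congrArg (fun q : ℚ => (q : ℂ)) he
    have hf' : ((D : ℂ)) * (r2 : ℂ) = f := by exact_mod_cast congrArg (fun q : ℚ => (q : ℂ)) hf
    refine ⟨e * b - D * f * a, ?_⟩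
    push_cast
    rw [← ha, ← hb, ← he', ← hf', ← ht, ← hr]
    ring

private theorem SInt_norm {lam : ℂ} {t r2 : ℚ}
    (hr : lam * (starRingEnd ℂ) lam = r2) (k : ℕ) :
    ((‖lam ^ k - 1‖ ^ 2 : ℝ) : ℂ) =
      1 - (lam ^ k + (starRingEnd ℂ) lam ^ k) + (r2 : ℂ) ^ k := by
  push_cast
  rw [← Complex.mul_conj', map_sub, map_pow, map_one, ← hr, mul_pow]
  ring

theorem spiral_int {lam : ℂ} {t r2 : ℚ} (ht : lam + (starRingEnd ℂ) lam = t)
    (hr : lam * (starRingEnd ℂ) lam = r2) (hne : lam ≠ 1) {κ : ℝ} {s : ℕ → ℚ}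
    (hs : ∀ k : ℕ, κ * ‖lam ^ k - 1‖ = s k) :
    ∃ N D : ℕ, 0 < N ∧ 0 < D ∧ ∀ k, ∃ j : ℤ, (N : ℚ) * (D : ℚ) ^ k * s k = j := by
  have he : ((t.den * r2.den : ℕ) : ℚ) * t = ((r2.den * t.num : ℤ) : ℚ) := by
    push_cast
    have := Rat.mul_den_eq_num t
    linear_combination (r2.den : ℚ) * this
  have hf : ((t.den * r2.den : ℕ) : ℚ) * r2 = ((t.den * r2.num : ℤ) : ℚ) := by
    push_cast
    have := Rat.mul_den_eq_num r2
    linear_combination (t.den : ℚ) * this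
  have htr := SInt_trace ht hr he hf
  have hD : 0 < t.den * r2.den := Nat.mul_pos t.pos r2.pos
  set D := t.den * r2.den with hDdef
  set f : ℤ := t.den * r2.num with hfdef
  choose a ha using htr
  have hDC : ((D : ℕ) : ℂ) ≠ 0 := by exact_mod_cast hD.ne'
  have hDR : ((D : ℕ) : ℝ) ≠ 0 := by exact_mod_cast hD.ne'
  have hDQ : ((D : ℕ) : ℚ) ≠ 0 := by exact_mod_cast hD.ne'
  -- the square of the norm is rational
  have hn : ∀ k : ℕ, ‖lam ^ k - 1‖ ^ 2 * (D : ℝ) ^ k = (D : ℝ) ^ k - a k + (f : ℝ) ^ k := by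
    intro k
    have h1 := SInt_norm (t := t) hr k
    have hf' : ((D : ℂ)) * (r2 : ℂ) = f := by exact_mod_cast congrArg (fun q : ℚ => (q : ℂ)) hf
    have h2 : (((‖lam ^ k - 1‖ ^ 2 * (D : ℝ) ^ k : ℝ)) : ℂ) =
        (((D : ℝ) ^ k - a k + (f : ℝ) ^ k : ℝ) : ℂ) := by
      rw [Complex.ofReal_mul, h1]
      push_cast
      rw [← ha k, ← hf', mul_pow]
      ring
    exact_mod_cast h2
  have hn1 : ‖lam - 1‖ ^ 2 = ((1 - t + r2 : ℚ) : ℝ) := by
    have h1 := SInt_norm (t := t) hr 1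
    rw [pow_one, pow_one, pow_one, ht] at h1
    have h2 : ((‖lam - 1‖ ^ 2 : ℝ) : ℂ) = (((1 - t + r2 : ℚ) : ℝ) : ℂ) := by
      rw [h1]
      push_cast
      ring
    exact_mod_cast h2
  have hpos : (1 - t + r2 : ℚ) ≠ 0 := by
    intro h
    rw [h] at hn1
    have h3 : ‖lam - 1‖ = 0 := by
      have h4 : ‖lam - 1‖ ^ 2 = 0 := by exact_mod_cast hn1
      exact pow_eq_zero_iff (two_ne_zero) |>.mp h4
    exact hne (sub_eq_zero.mp (norm_eq_zero.mp h3))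
  have hposR : ((1 - t + r2 : ℚ) : ℝ) ≠ 0 := by exact_mod_cast hpos
  set q : ℚ := s 1 ^ 2 / (1 - t + r2) with hq
  have hκ : κ ^ 2 = (q : ℝ) := by
    have h1 := hs 1
    rw [pow_one] at h1
    have h2 : κ ^ 2 * ((1 - t + r2 : ℚ) : ℝ) = ((s 1 ^ 2 : ℚ) : ℝ) := by
      rw [← hn1]
      push_cast
      rw [← h1]
      ring
    rw [hq, Rat.cast_div, eq_div_iff hposR]
    exact h2
  refine ⟨q.den, D, q.pos, hD, fun k => ?_⟩
  have hsq : (((q.den : ℚ) * (D : ℚ) ^ k * s k) ^ 2 : ℚ) =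
      ((q.den * q.num * (D ^ k * (D ^ k - a k + f ^ k)) : ℤ) : ℚ) := by
    have hR : (((((q.den : ℚ) * (D : ℚ) ^ k * s k) ^ 2 : ℚ)) : ℝ) =
        (((q.den * q.num * (D ^ k * (D ^ k - a k + f ^ k)) : ℤ) : ℚ) : ℝ) := by
      push_cast
      have hqd : (q : ℝ) * (q.den : ℝ) = (q.num : ℝ) := by exact_mod_cast Rat.mul_den_eq_num q
      rw [← hs k, ← hn k, ← hqd, ← hκ]
      ring
    exact_mod_cast hR
  exact int_of_sq hsq

end Pool.Agent.H20.RO
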