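import Pool.Agent.H20.RO.Cat

/-!
# Module Ser: evaluation of the power series

PROOFS. `EE_summable`: `‖ee n * y ^ n‖ ≤ (4 ‖y‖) ^ n`, geometric. `EE_sq`: Cauchy product (`tsum_mul_tsum_eq_tsum_sum_antidiagonal_of_summable_norm`), the inner sum is `y ^ n * ∑ ee i ee j` (cast of `ee_conv`), so the sum is `1 - 4 y`
(`tsum_eq_sum` with `range 2`). `cc_norm`: each of the `l + 1` terms has norm `≤ 4 ^ l M ^ l`, and `l + 1 ≤ 2 ^ l`. `cc_sum`: Cauchy product of the series of `EE (a y)` and `EE (b y)`; the inner sum is `cc a b l * y ^ l`; summable by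
`summable_norm_sum_mul_antidiagonal_of_summable_norm` (then `Summable.hasSum` and the value of the `tsum`). `prod_sum`: product of two absolutely convergent series over `ℕ × ℕ` (`summable_mul_of_summable_norm`, `tsum_mul_tsum_of_summable_norm`).
`norm_EE`: `EE (conj y) = conj (EE y)` (`Complex.conj_tsum` or `ContinuousLinearMap.map_tsum`; `map_mul`, `map_pow`, `map_intCast`), so the product is `‖EE y‖ ^ 2 = ‖EE y ^ 2‖ = ‖1 - 4 y‖` (`Complex.mul_conj`, `Complex.normSq_eq_norm_sq`).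
-/

set_option autoImplicit false

open Finset Filter Topology

namespace Pool.Agent.H20.RO

variable {K : Type*} [NormedField K]

/-- The value of `√(1 - 4 X)` at `y`. -/
noncomputable def EE (y : K) : K := ∑' n, (ee n : K) * y ^ n

theorem EE_summable (he : ∀ n, ‖(ee n : K)‖ ≤ 4 ^ n) {y : K} (hy : 4 * ‖y‖ < 1) :
    Summable (fun n => ‖(ee n : K) * y ^ n‖) := by
  refine Summable.of_nonneg_of_le (fun n => norm_nonneg _) (fun n => ?_)
    (summable_geometric_of_lt_one (by positivity : (0:ℝ) ≤ 4 * ‖y‖) hy)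
  rw [norm_mul, norm_pow, mul_pow]
  exact mul_le_mul_of_nonneg_right (he n) (by positivity)

private theorem Ser_inner {a b y : K} (n : ℕ) :
    ∑ kl ∈ antidiagonal n, ((ee kl.1 : K) * (a * y) ^ kl.1) * ((ee kl.2 : K) * (b * y) ^ kl.2)
      = cc a b n * y ^ n := by
  unfold cc
  rw [Finset.sum_mul]
  refine Finset.sum_congr rfl (fun kl hkl => ?_)
  have h : kl.1 + kl.2 = n := by simpa using hkl
  rw [← h, pow_add, mul_pow, mul_pow]
  ring

private theorem Ser_cc_one (n : ℕ) :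
    cc (1 : K) 1 n = if n = 0 then 1 else if n = 1 then -4 else 0 := by
  unfold cc
  have h := congrArg (fun z : ℤ => (z : K)) (ee_conv n)
  simp only [Int.cast_sum, Int.cast_mul] at h
  simp only [one_pow, mul_one]
  rw [h]
  split_ifs <;> simp

theorem cc_sum [CompleteSpace K] (he : ∀ n, ‖(ee n : K)‖ ≤ 4 ^ n) {a b y : K}
    (ha : 4 * ‖a * y‖ < 1) (hb : 4 * ‖b * y‖ < 1) :
    HasSum (fun l => cc a b l * y ^ l) (EE (a * y) * EE (b * y)) := by
  have h1 := EE_summable he ha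
  have h2 := EE_summable he hb
  have h3 := tsum_mul_tsum_eq_tsum_sum_antidiagonal_of_summable_norm h1 h2
  have h4 := (summable_norm_sum_mul_antidiagonal_of_summable_norm h1 h2).of_norm
  have h5 := h4.hasSum
  rw [← h3] at h5
  simp only [Ser_inner] at h5
  exact h5

theorem EE_sq [CompleteSpace K] (he : ∀ n, ‖(ee n : K)‖ ≤ 4 ^ n) {y : K} (hy : 4 * ‖y‖ < 1) :
    EE y ^ 2 = 1 - 4 * y := by
  have h := cc_sum he (a := (1 : K)) (b := 1) (y := y) (by simpa using hy) (by simpa using hy)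
  have h2 : HasSum (fun l => cc (1 : K) 1 l * y ^ l)
      (∑ l ∈ range 2, cc (1 : K) 1 l * y ^ l) := by
    refine hasSum_sum_of_ne_finset_zero (fun l hl => ?_)
    have hl' : 2 ≤ l := by
      rw [Finset.mem_range] at hl
      omega
    rw [Ser_cc_one, if_neg (by omega), if_neg (by omega), zero_mul]
  have h3 := h.unique h2
  rw [one_mul] at h3
  rw [sq, h3, Finset.sum_range_succ, Finset.sum_range_one, Ser_cc_one, Ser_cc_one]
  simp
  ring

theorem cc_norm (he : ∀ n, ‖(ee n : K)‖ ≤ 4 ^ n) {a b : K} {M : ℝ} (ha : ‖a‖ ≤ M) (hb : ‖b‖ ≤ M)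
    (l : ℕ) : ‖cc a b l‖ ≤ (8 * M) ^ l := by
  have hM : 0 ≤ M := le_trans (norm_nonneg _) ha
  have h1 : ‖cc a b l‖ ≤ ∑ ij ∈ antidiagonal l, (4 : ℝ) ^ l * M ^ l := by
    unfold cc
    refine norm_sum_le_of_le _ (fun ij hij => ?_)
    have h : ij.1 + ij.2 = l := by simpa using hij
    rw [norm_mul, norm_mul, norm_mul, norm_pow, norm_pow, ← h, pow_add, pow_add]
    have e1 : ‖(ee ij.1 : K)‖ * ‖(ee ij.2 : K)‖ ≤ 4 ^ ij.1 * 4 ^ ij.2 :=
      mul_le_mul (he _) (he _) (norm_nonneg _) (by positivity)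
    have e2 : ‖a‖ ^ ij.1 * ‖b‖ ^ ij.2 ≤ M ^ ij.1 * M ^ ij.2 :=
      mul_le_mul (pow_le_pow_left₀ (norm_nonneg _) ha _) (pow_le_pow_left₀ (norm_nonneg _) hb _)
        (by positivity) (by positivity)
    exact mul_le_mul e1 e2 (by positivity) (by positivity)
  rw [Finset.sum_const, Finset.Nat.card_antidiagonal, nsmul_eq_mul] at h1
  have h2 : ((l + 1 : ℕ) : ℝ) ≤ 2 ^ l := by
    have : l + 1 ≤ 2 ^ l := Nat.lt_two_pow_self
    exact_mod_cast this
  calc ‖cc a b l‖ ≤ ((l + 1 : ℕ) : ℝ) * (4 ^ l * M ^ l) := h1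
    _ ≤ 2 ^ l * (4 ^ l * M ^ l) := mul_le_mul_of_nonneg_right h2 (by positivity)
    _ = (8 * M) ^ l := by
      rw [← mul_assoc, ← mul_pow, ← mul_pow]; norm_num

theorem prod_sum [CompleteSpace K] (he : ∀ n, ‖(ee n : K)‖ ≤ 4 ^ n) {a b : K}
    (ha : 4 * ‖a‖ < 1) (hb : 4 * ‖b‖ < 1) :
    HasSum (fun ij : ℕ × ℕ => ((ee ij.1 : K) * a ^ ij.1) * ((ee ij.2 : K) * b ^ ij.2))
      (EE a * EE b) := by
  have h1 := EE_summable he ha
  have h2 := EE_summable he hb
  have h3 := tsum_mul_tsum_of_summable_norm h1 h2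
  have h4 := (summable_mul_of_summable_norm h1 h2).hasSum
  rw [← h3] at h4
  exact h4

theorem norm_EE {y : ℂ} (hy : 4 * ‖y‖ < 1) :
    EE y * EE ((starRingEnd ℂ) y) = ((‖1 - 4 * y‖ : ℝ) : ℂ) := by
  have h1 : EE ((starRingEnd ℂ) y) = (starRingEnd ℂ) (EE y) := by
    unfold EE
    rw [Complex.conj_tsum]
    refine tsum_congr (fun n => ?_)
    rw [map_mul, map_pow, map_intCast]
  rw [h1, Complex.mul_conj, Complex.normSq_eq_norm_sq, ← norm_pow, EE_sq he_complex hy]

end Pool.Agent.H20.RO
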