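import Pool.Agent.H20.RO.SKil
import Pool.Agent.H20.RO.SInt
import Pool.Agent.H20.RO.SDbl
import Pool.Agent.H20.RO.Ser
import Pool.Agent.H20.RO.Ces

/-!
# Module SMain: no spiral

PROOF. `s k` with `κ ‖λ ^ k - 1‖ = s k`. `ρ = ‖λ‖`, `0 < ρ < 1`, `r2 = ρ²` rational; `s 2 / s 1 = ‖λ + 1‖` (`λ ≠ 1`), so `t = ‖λ + 1‖² - 1 - ρ²` is rational, `λ + λ̄ = t`. For `k ≥ k0` (`ρ ^ k < 1`, so `k0 = 1`): `norm_EE` with `y = λ ^ k / 4` and `prod_sum`: `s k = ∑_(i,j) κ (ee i ee j / 4 ^ (i + j)) (λ ^ i λ̄ ^ j) ^ k`.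
`N, D` from `spiral_int`. Choose `m ≥ 2` with `D ρ ^ m < 1` and `(λ̄ / λ) ^ (m - 1) ≠ 1` (one of two consecutive numbers, because `λ̄ ≠ λ`). `Q` from `kill`. `app_hasSum`: `app Q s k = ∑_(i,j) c_ij μ_ij ^ k`, `μ_ij = λ ^ i λ̄ ^ j`, `c_ij = κ (ee i ee j / 4 ^ (i + j)) Q(μ_ij)`, `c_ij = 0` for `i + j < m`,
`‖c_ij‖ ≤ κ B` (`ee_abs`, `eval_bound`). `dbl`: `|app Q s k| ≤ C (ρ ^ m) ^ k`; `M D ^ k app Q s k` (`app_int`) is an integer of absolute value `≤ M C (D ρ ^ m) ^ k → 0`, so `app Q s k = 0` for `k ≥ k1`. Second part of `dbl`, divided by `(ρ ^ m) ^ k`: `∑ ij ∈ antidiagonal m, c_ij (μ_ij / ρ ^ m) ^ k → 0`.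
`ces` with `u = μ_(m-1,1) / ρ ^ m`: the sum of `c_ij` over `J = {ij ∈ antidiagonal m | μ_ij = μ_(m-1,1)}` is `0`; on `J` the factor `κ Q(μ_ij) / 4 ^ m` is the same and not `0` (second property of `Q`; `‖μ‖ = ρ ^ m`), so `∑ ij ∈ J, ee i ee j = 0`. `(m-1,1) ∈ J`; `(m, 0) ∉ J` because `λ̄ ≠ λ`, `(0, m) ∉ J` because
`(λ̄ / λ) ^ (m - 1) ≠ 1`. So all terms are positive (`ee_neg`), contradiction.
-/

set_option autoImplicit false

open Finset Filter Topology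

namespace Pool.Agent.H20.RO

private lemma SMain_series {lam : ℂ} (h1 : ‖lam‖ < 1) {κ : ℝ} {s : ℕ → ℚ}
    (hs : ∀ k : ℕ, κ * ‖lam ^ k - 1‖ = s k) {k : ℕ} (hk : 1 ≤ k) :
    HasSum (fun ij : ℕ × ℕ => (κ : ℂ) * ((ee ij.1 : ℂ) * (ee ij.2 : ℂ) / 4 ^ (ij.1 + ij.2)) *
      (lam ^ ij.1 * (starRingEnd ℂ) lam ^ ij.2) ^ k) ((s k : ℚ) : ℂ) := by
  obtain ⟨y, hy⟩ : ∃ y : ℂ, y = lam ^ k / 4 := ⟨_, rfl⟩
  have hn : ‖lam ^ k‖ < 1 := by
    rw [norm_pow]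
    exact pow_lt_one₀ (norm_nonneg _) h1 (by omega)
  have hy4 : 4 * ‖y‖ < 1 := by
    rw [hy, norm_div]
    have : ‖(4 : ℂ)‖ = 4 := by simp
    rw [this]
    linarith
  have hyc : 4 * ‖(starRingEnd ℂ) y‖ < 1 := by
    rw [RCLike.norm_conj]
    exact hy4
  have e1 := norm_EE hy4
  have e2 := prod_sum (K := ℂ) he_complex hy4 hyc
  rw [e1] at e2
  have e3 : 1 - 4 * y = -(lam ^ k - 1) := by
    rw [hy]
    ring
  rw [e3, norm_neg] at e2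
  have e4 := e2.mul_left (κ : ℂ)
  have e5 : (κ : ℂ) * ((‖lam ^ k - 1‖ : ℝ) : ℂ) = ((s k : ℚ) : ℂ) := by
    rw [← Complex.ofReal_mul, hs k]
    simp
  rw [e5] at e4
  refine e4.congr_fun fun ij => ?_
  rw [hy, map_div₀, map_pow]
  have h4 : (starRingEnd ℂ) (4 : ℂ) = 4 := by
    have := Complex.conj_ofReal 4
    simpa using this
  rw [h4, div_pow, div_pow, mul_pow, pow_add, ← pow_mul, ← pow_mul, ← pow_mul, ← pow_mul,
    mul_comm ij.1 k, mul_comm ij.2 k]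
  field_simp

private lemma SMain_m {lam : ℂ} (him : lam.im ≠ 0) (h1 : ‖lam‖ < 1) (D : ℕ) :
    ∃ m : ℕ, 2 ≤ m ∧ (D : ℝ) * ‖lam‖ ^ m < 1 ∧
      (starRingEnd ℂ) lam ^ (m - 1) ≠ lam ^ (m - 1) := by
  have hne : (starRingEnd ℂ) lam ≠ lam := fun h => him (Complex.conj_eq_iff_im.1 h)
  have hl0 : lam ≠ 0 := fun h => him (by rw [h]; rfl)
  have ht : Tendsto (fun m : ℕ => (D : ℝ) * ‖lam‖ ^ m) atTop (𝓝 0) := by
    have := (tendsto_pow_atTop_nhds_zero_of_lt_one (norm_nonneg lam) h1).const_mul (D : ℝ)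
    rwa [mul_zero] at this
  obtain ⟨m0, hm0⟩ := eventually_atTop.1 (ht.eventually (gt_mem_nhds (zero_lt_one' ℝ)))
  by_cases hc : (starRingEnd ℂ) lam ^ (max m0 2 - 1) = lam ^ (max m0 2 - 1)
  · refine ⟨max m0 2 + 1, by omega, hm0 _ (by omega), fun h => hne ?_⟩
    have h2 : max m0 2 + 1 - 1 = (max m0 2 - 1) + 1 := by omega
    rw [h2, pow_succ, pow_succ, hc] at h
    exact mul_left_cancel₀ (pow_ne_zero _ hl0) h
  · exact ⟨max m0 2, by omega, hm0 _ (by omega), hc⟩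

private lemma SMain_zero {Q : Polynomial ℚ} {s : ℕ → ℚ} {M D : ℕ} (hM : 0 < M) (hD : 0 < D)
    (h : ∀ n, ∃ k : ℤ, (M : ℚ) * (D : ℚ) ^ n * app Q s n = k) {C x : ℝ} (hx0 : 0 ≤ x)
    (hx : (D : ℝ) * x < 1) (hC : ∀ n : ℕ, 1 ≤ n → ‖((app Q s n : ℚ) : ℂ)‖ ≤ C * x ^ n) :
    ∃ n1 : ℕ, 1 ≤ n1 ∧ ∀ n ≥ n1, app Q s n = 0 := by
  have ht : Tendsto (fun n : ℕ => (M : ℝ) * C * ((D : ℝ) * x) ^ n) atTop (𝓝 0) := by
    have := (tendsto_pow_atTop_nhds_zero_of_lt_one (by positivity) hx).const_mul ((M : ℝ) * C)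
    rwa [mul_zero] at this
  obtain ⟨m0, hm0⟩ := eventually_atTop.1 (ht.eventually (gt_mem_nhds (zero_lt_one' ℝ)))
  refine ⟨max m0 1, by omega, fun n hn => ?_⟩
  obtain ⟨k, hk⟩ := h n
  have h2 : |(app Q s n : ℝ)| ≤ C * x ^ n := by
    have h3 := hC n (by omega)
    have h4 : ((app Q s n : ℚ) : ℂ) = (((app Q s n : ℚ) : ℝ) : ℂ) := by simp
    rw [h4, Complex.norm_real, Real.norm_eq_abs] at h3
    exact h3
  have h5 : |(k : ℝ)| < 1 := by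
    have h6 : (k : ℝ) = (M : ℝ) * (D : ℝ) ^ n * (app Q s n : ℝ) := by
      have := congrArg (fun q : ℚ => (q : ℝ)) hk
      push_cast at this
      exact this.symm
    rw [h6, abs_mul, abs_of_nonneg (by positivity : (0 : ℝ) ≤ (M : ℝ) * (D : ℝ) ^ n)]
    calc (M : ℝ) * (D : ℝ) ^ n * |(app Q s n : ℝ)| ≤ (M : ℝ) * (D : ℝ) ^ n * (C * x ^ n) :=
          mul_le_mul_of_nonneg_left h2 (by positivity)
      _ = (M : ℝ) * C * ((D : ℝ) * x) ^ n := by rw [mul_pow]; ring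
      _ < 1 := hm0 n (by omega)
  have h7 : k = 0 := by
    rw [← Int.abs_lt_one_iff]
    exact_mod_cast h5
  rw [h7] at hk
  have hM' : (M : ℚ) ≠ 0 := by exact_mod_cast hM.ne'
  have hD' : (D : ℚ) ^ n ≠ 0 := pow_ne_zero _ (by exact_mod_cast hD.ne')
  have h8 : (M : ℚ) * (D : ℚ) ^ n * app Q s n = 0 := by rw [hk]; simp
  rcases mul_eq_zero.1 h8 with h9 | h9
  · exact absurd h9 (mul_ne_zero hM' hD')
  · exact h9

/-- the numbers `t`, `r2` -/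
private lemma SMain_rat {lam : ℂ} (him : lam.im ≠ 0) {rr : ℚ} (hrr : ‖lam‖ = rr) {κ : ℝ}
    (hκ : 0 < κ) {s : ℕ → ℚ} (hs : ∀ k : ℕ, κ * ‖lam ^ k - 1‖ = s k) :
    ∃ t r2 : ℚ, lam + (starRingEnd ℂ) lam = t ∧ lam * (starRingEnd ℂ) lam = r2 := by
  have hne : lam - 1 ≠ 0 := fun h => him (by
    have h2 : lam = 1 := sub_eq_zero.1 h
    rw [h2]
    rfl)
  have h1 := hs 1
  have h2 := hs 2
  rw [pow_one] at h1
  have h3 : lam ^ 2 - 1 = (lam - 1) * (lam + 1) := by ring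
  rw [h3, norm_mul, ← mul_assoc, h1] at h2
  have hs1 : (s 1 : ℝ) ≠ 0 := by
    rw [← h1]
    exact (mul_pos hκ (norm_pos_iff.2 hne)).ne'
  have h4 : ‖lam + 1‖ = ((s 2 / s 1 : ℚ) : ℝ) := by
    push_cast
    rw [eq_div_iff hs1, mul_comm]
    exact h2
  refine ⟨(s 2 / s 1) ^ 2 - 1 - rr ^ 2, rr ^ 2, ?_, ?_⟩
  · have h5 : ‖lam + 1‖ ^ 2 = ‖lam‖ ^ 2 + 1 + 2 * lam.re := by
      rw [← Complex.normSq_eq_norm_sq, ← Complex.normSq_eq_norm_sq, Complex.normSq_apply,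
        Complex.normSq_apply]
      simp
      ring
    rw [h4, hrr] at h5
    rw [Complex.add_conj]
    have h6 : (2 * lam.re : ℝ) = (((s 2 / s 1) ^ 2 - 1 - rr ^ 2 : ℚ) : ℝ) := by
      push_cast at h5 ⊢
      linarith
    rw [h6]
    simp
  · rw [Complex.mul_conj, Complex.normSq_eq_norm_sq, hrr]
    simp

theorem no_spiral {lam : ℂ} (him : lam.im ≠ 0) (h1 : ‖lam‖ < 1) (hr : ∃ r : ℚ, ‖lam‖ = r)
    {κ : ℝ} (hκ : 0 < κ) (h : ∀ k : ℕ, ∃ r : ℚ, κ * ‖lam ^ k - 1‖ = r) : False := by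
  obtain ⟨rr, hrr⟩ := hr
  choose s hs using h
  obtain ⟨t, r2, ht, hr2⟩ := SMain_rat him hrr hκ hs
  have hl0 : lam ≠ 0 := fun h => him (by rw [h]; rfl)
  have hl1 : lam ≠ 1 := fun h => him (by rw [h]; rfl)
  have hcne : (starRingEnd ℂ) lam ≠ lam := fun h => him (Complex.conj_eq_iff_im.1 h)
  have hc0 : (starRingEnd ℂ) lam ≠ 0 := by
    rw [Ne, map_eq_zero]
    exact hl0
  have hρ0 : 0 < ‖lam‖ := norm_pos_iff.2 hl0
  obtain ⟨N, D, hN, hD, hND⟩ := spiral_int ht hr2 hl1 hs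
  obtain ⟨m, hm2, hDm, hm⟩ := SMain_m him h1 D
  obtain ⟨Q, hQ0, hQ1⟩ := kill ht hr2 m
  obtain ⟨μ, hμd⟩ : ∃ μ : ℕ × ℕ → ℂ, μ = fun ij => lam ^ ij.1 * (starRingEnd ℂ) lam ^ ij.2 :=
    ⟨_, rfl⟩
  obtain ⟨c0, hc0d⟩ : ∃ c0 : ℕ × ℕ → ℂ,
      c0 = fun ij => (κ : ℂ) * ((ee ij.1 : ℂ) * (ee ij.2 : ℂ) / 4 ^ (ij.1 + ij.2)) := ⟨_, rfl⟩
  obtain ⟨c, hcd⟩ : ∃ c : ℕ × ℕ → ℂ,
      c = fun ij => c0 ij * Q.eval₂ (Rat.castHom ℂ) (μ ij) := ⟨_, rfl⟩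
  have hμ : ∀ ij : ℕ × ℕ, ‖μ ij‖ = ‖lam‖ ^ (ij.1 + ij.2) := by
    intro ij
    rw [hμd]
    simp only
    rw [norm_mul, norm_pow, norm_pow, RCLike.norm_conj, pow_add]
  have hμ1 : ∀ ij : ℕ × ℕ, ‖μ ij‖ ≤ 1 := fun ij => by
    rw [hμ]
    exact pow_le_one₀ (norm_nonneg _) h1.le
  have hcc : ∀ ij : ℕ × ℕ, ‖c0 ij‖ ≤ κ := by
    intro ij
    rw [hc0d]
    simp only
    rw [norm_mul, norm_div, norm_mul, norm_pow, Complex.norm_real, Real.norm_of_nonneg hκ.le]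
    have h4 : ‖(4 : ℂ)‖ = 4 := by simp
    rw [h4]
    have h5 := mul_le_mul (he_complex ij.1) (he_complex ij.2) (norm_nonneg _) (by positivity)
    rw [← pow_add] at h5
    have h6 : ‖(ee ij.1 : ℂ)‖ * ‖(ee ij.2 : ℂ)‖ / 4 ^ (ij.1 + ij.2) ≤ 1 :=
      (div_le_one (by positivity)).2 h5
    calc κ * (‖(ee ij.1 : ℂ)‖ * ‖(ee ij.2 : ℂ)‖ / 4 ^ (ij.1 + ij.2)) ≤ κ * 1 :=
          mul_le_mul_of_nonneg_left h6 hκ.le
      _ = κ := mul_one _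
  obtain ⟨B, hB0, hB⟩ := eval_bound (K := ℂ) Q
  have hcb : ∀ ij, ‖c ij‖ ≤ κ * B := by
    intro ij
    rw [hcd]
    simp only
    rw [norm_mul]
    exact mul_le_mul (hcc ij) (hB _ (hμ1 ij)) (norm_nonneg _) hκ.le
  have hz : ∀ ij : ℕ × ℕ, ij.1 + ij.2 < m → c ij = 0 := by
    intro ij hij
    rw [hcd]
    simp only
    rw [hμd]
    simp only
    rw [hQ0 _ _ hij, mul_zero]
  have hsum : ∀ n : ℕ, 1 ≤ n → HasSum (fun ij => c ij * μ ij ^ n) ((app Q s n : ℚ) : ℂ) := by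
    intro n hn
    have h2 := app_hasSum (K := ℂ) Q s c0 μ n (fun k => by
      have h3 := SMain_series h1 hs (show 1 ≤ n + k by omega)
      rw [hc0d, hμd]
      exact h3)
    rw [hcd]
    exact h2
  obtain ⟨C, hC0, hC⟩ := dbl hρ0 h1 hcb hμ hz
  obtain ⟨M, hM, hMi⟩ := app_int Q hN hD hND
  obtain ⟨n1, hn1, hzero⟩ := SMain_zero (Q := Q) (s := s) hM hD hMi (C := C) (x := ‖lam‖ ^ m)
    (by positivity) hDm (fun n hn => (hC n hn _ (hsum n hn)).1)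
  obtain ⟨R, hR⟩ : ∃ R : ℂ, R = ((‖lam‖ : ℝ) : ℂ) ^ m := ⟨_, rfl⟩
  have hRn : ‖R‖ = ‖lam‖ ^ m := by
    rw [hR, norm_pow, Complex.norm_real, norm_norm]
  have hR0 : R ≠ 0 := by
    rw [← norm_pos_iff, hRn]
    positivity
  have hlim : Tendsto (fun n : ℕ => ∑ ij ∈ antidiagonal m, c ij * (μ ij / R) ^ n) atTop (𝓝 0) := by
    refine squeeze_zero_norm' ?_ (show Tendsto (fun n : ℕ => C * ‖lam‖ ^ n) atTop (𝓝 0) by
      have := (tendsto_pow_atTop_nhds_zero_of_lt_one (norm_nonneg lam) h1).const_mul C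
      rwa [mul_zero] at this)
    refine eventually_atTop.2 ⟨n1, fun n hn => ?_⟩
    have h2 := (hC n (by omega) _ (hsum n (by omega))).2
    rw [hzero n hn] at h2
    have e1 : ∑ ij ∈ antidiagonal m, c ij * (μ ij / R) ^ n =
        (∑ ij ∈ antidiagonal m, c ij * μ ij ^ n) / R ^ n := by
      rw [Finset.sum_div]
      exact Finset.sum_congr rfl fun ij _ => by rw [div_pow, mul_div_assoc]
    rw [e1, norm_div, norm_pow, hRn, div_le_iff₀ (by positivity)]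
    have e2 : ‖∑ ij ∈ antidiagonal m, c ij * μ ij ^ n‖ ≤ C * (‖lam‖ ^ (m + 1)) ^ n := by
      simpa using h2
    refine e2.trans (le_of_eq ?_)
    rw [← pow_mul, ← pow_mul, mul_assoc, ← pow_add]
    congr 2
    ring
  have hω : ∀ ij ∈ antidiagonal m, ‖(fun ij => μ ij / R) ij‖ = 1 := by
    intro ij hij
    simp only
    rw [norm_div, hμ, hRn, mem_antidiagonal.1 hij]
    exact div_self (by positivity)
  have hmem : (m - 1, 1) ∈ antidiagonal m := mem_antidiagonal.2 (by simp only; omega)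
  have hces := ces (antidiagonal m) c (fun ij => μ ij / R) hω hlim (μ (m - 1, 1) / R) (hω _ hmem)
  have hJ : ∀ ij ∈ (antidiagonal m).filter (fun ij => μ ij / R = μ (m - 1, 1) / R),
      μ ij = μ (m - 1, 1) ∧ 0 < ee ij.1 * ee ij.2 := by
    intro ij hij
    rw [mem_filter] at hij
    have h2 : μ ij = μ (m - 1, 1) := (div_left_inj' hR0).1 hij.2
    refine ⟨h2, ?_⟩
    have h3 := mem_antidiagonal.1 hij.1
    have h4 : μ (m - 1, 1) = lam ^ (m - 1) * (starRingEnd ℂ) lam := by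
      rw [hμd]
      simp only [pow_one]
    have hi : ij.1 ≠ 0 := by
      intro h0
      have h5 : ij.2 = (m - 1) + 1 := by omega
      have h6 : μ ij = (starRingEnd ℂ) lam ^ ((m - 1) + 1) := by
        rw [hμd]
        simp only
        rw [h0, h5, pow_zero, one_mul]
      rw [h2, h4, pow_succ] at h6
      exact hm (mul_right_cancel₀ hc0 h6).symm
    have hj : ij.2 ≠ 0 := by
      intro h0
      have h5 : ij.1 = (m - 1) + 1 := by omega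
      have h6 : μ ij = lam ^ ((m - 1) + 1) := by
        rw [hμd]
        simp only
        rw [h0, h5, pow_zero, mul_one]
      rw [h2, h4, pow_succ] at h6
      exact hcne (mul_left_cancel₀ (pow_ne_zero _ hl0) h6)
    exact mul_pos_of_neg_of_neg (ee_neg hi) (ee_neg hj)
  have hq : Q.eval₂ (Rat.castHom ℂ) (μ (m - 1, 1)) ≠ 0 := by
    refine hQ1 _ fun l hl h2 => ?_
    rw [hμ] at h2
    simp only at h2
    have h3 : m - 1 + 1 = l := pow_right_injective₀ hρ0 h1.ne h2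
    omega
  have hval : ∀ ij ∈ (antidiagonal m).filter (fun ij => μ ij / R = μ (m - 1, 1) / R),
      c ij = ((κ : ℂ) / 4 ^ m * Q.eval₂ (Rat.castHom ℂ) (μ (m - 1, 1))) *
        ((ee ij.1 * ee ij.2 : ℤ) : ℂ) := by
    intro ij hij
    have h2 := (hJ ij hij).1
    have h3 := mem_antidiagonal.1 (mem_filter.1 hij).1
    rw [hcd]
    simp only
    rw [h2, hc0d]
    simp only
    rw [h3]
    push_cast
    ring
  rw [Finset.sum_congr rfl hval, ← Finset.mul_sum] at hces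
  have hκ4 : (κ : ℂ) / 4 ^ m * Q.eval₂ (Rat.castHom ℂ) (μ (m - 1, 1)) ≠ 0 := by
    refine mul_ne_zero (div_ne_zero ?_ (by simp)) hq
    exact_mod_cast hκ.ne'
  rcases mul_eq_zero.1 hces with h2 | h2
  · exact hκ4 h2
  · rw [← Int.cast_sum] at h2
    have h3 : ∑ ij ∈ (antidiagonal m).filter (fun ij => μ ij / R = μ (m - 1, 1) / R),
        ee ij.1 * ee ij.2 = 0 := by exact_mod_cast h2
    have h4 : 0 < ∑ ij ∈ (antidiagonal m).filter (fun ij => μ ij / R = μ (m - 1, 1) / R),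
        ee ij.1 * ee ij.2 :=
      Finset.sum_pos (fun ij hij => (hJ ij hij).2) ⟨(m - 1, 1), mem_filter.2 ⟨hmem, rfl⟩⟩
    omega

end Pool.Agent.H20.RO
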