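import Pool.Agent.H20.RO.App

/-!
# Module Tr: translations

PROOF. `r n = ‖z + n v - w‖`, `u = w - z`: `r n ^ 2 = n² ‖v‖² - 2 n Re (u v̄) + ‖u‖²`. `b = ‖v‖ > 0` rational; `r 0 ^ 2 = ‖u‖²` and `r 1 ^ 2` rational, so `Re (u v̄)` is rational; `β = Re (u v̄) / b` and `γ = ‖u‖² - β²` are rational and `r n ^ 2 = (b n - β)² + γ`; `γ b² = Im (u v̄)²` (`‖u‖² ‖v‖² = Re² + Im²`), so `γ ≥ 0` and `γ = 0` is the claim.
Suppose `γ > 0`. Let `N > 0` be an integer with `N b`, `N β`, `N γ` integers (so `N² γ` too). `(N r n)² = (N b n - N β)² + N² γ` is an integer, so `N r n` is an integer (`int_of_sq`), `≥ 0`. For `n` large `k = N b n - N β` is an integer with `2 k + 1 > N² γ`, `k ≥ 0`: `k² < (N r n)² < (k + 1)²`, impossible.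
-/

set_option autoImplicit false

open Finset Filter Topology

namespace Pool.Agent.H20.RO

private lemma Tr_den (q : ℚ) (m : ℤ) : ∃ k : ℤ, (((q.den : ℤ) * m : ℤ) : ℚ) * q = k := by
  refine ⟨m * q.num, ?_⟩
  have h := Rat.mul_den_eq_num q
  push_cast
  calc (q.den : ℚ) * (m : ℚ) * q = (m : ℚ) * (q * (q.den : ℚ)) := by ring
    _ = (m : ℚ) * (q.num : ℚ) := by rw [h]

/-- the arithmetic part -/
private lemma Tr_rat {b β γ : ℚ} (hb : 0 < b) (hγ : 0 < γ) (ρ : ℕ → ℚ)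
    (h : ∀ n : ℕ, ρ n ^ 2 = (b * n - β) ^ 2 + γ) : False := by
  obtain ⟨N, hN⟩ : ∃ N : ℤ, N = (b.den : ℤ) * ((β.den : ℤ) * (γ.den : ℤ)) := ⟨_, rfl⟩
  have hN0 : 0 < N := by
    rw [hN]
    have h1 : (0 : ℤ) < b.den := by exact_mod_cast b.pos
    have h2 : (0 : ℤ) < β.den := by exact_mod_cast β.pos
    have h3 : (0 : ℤ) < γ.den := by exact_mod_cast γ.pos
    positivity
  have hNq : (0 : ℚ) < N := by exact_mod_cast hN0
  obtain ⟨B, hB⟩ : ∃ k : ℤ, (N : ℚ) * b = k := by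
    rw [hN]
    exact Tr_den b _
  obtain ⟨T, hT⟩ : ∃ k : ℤ, (N : ℚ) * β = k := by
    have e : N = (β.den : ℤ) * ((b.den : ℤ) * (γ.den : ℤ)) := by rw [hN]; ring
    rw [e]
    exact Tr_den β _
  obtain ⟨G, hG⟩ : ∃ k : ℤ, (N : ℚ) * γ = k := by
    have e : N = (γ.den : ℤ) * ((b.den : ℤ) * (β.den : ℤ)) := by rw [hN]; ring
    rw [e]
    exact Tr_den γ _
  have hB0 : 0 < B := by
    have : (0 : ℚ) < B := by rw [← hB]; positivity
    exact_mod_cast this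
  have hG0 : 0 < G := by
    have : (0 : ℚ) < G := by rw [← hG]; positivity
    exact_mod_cast this
  have hNG : 0 < N * G := mul_pos hN0 hG0
  have hT0 := abs_nonneg T
  obtain ⟨n, hn⟩ : ∃ n : ℕ, (n : ℤ) = |T| + N * G :=
    ⟨(|T| + N * G).toNat, Int.toNat_of_nonneg (by linarith)⟩
  have key : ((N : ℚ) * ρ n) ^ 2 = (((B * n - T) ^ 2 + N * G : ℤ) : ℚ) := by
    push_cast
    rw [← hB, ← hT, ← hG, mul_pow, h n]
    ring
  obtain ⟨j, hj⟩ := int_of_sq key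
  rw [hj] at key
  have key2 : j ^ 2 = (B * n - T) ^ 2 + N * G := by exact_mod_cast key
  obtain ⟨k, hk⟩ : ∃ k : ℤ, k = B * n - T := ⟨_, rfl⟩
  rw [← hk] at key2
  have hk0 : N * G ≤ k := by
    have h1 : (n : ℤ) ≤ B * n := by
      have h2 : (0 : ℤ) ≤ n := by positivity
      nlinarith
    have h3 := le_abs_self T
    rw [hk]
    linarith
  have hk1 : 0 ≤ k := by linarith
  have h1 : k ^ 2 < j ^ 2 := by linarith
  have h2 : |k| < |j| := sq_lt_sq.1 h1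
  rw [abs_of_nonneg hk1] at h2
  have h3 : (k + 1) ^ 2 ≤ |j| ^ 2 := pow_le_pow_left₀ (by linarith) (by linarith) 2
  rw [sq_abs] at h3
  nlinarith

theorem translation {v z w : ℂ} (hv : v ≠ 0) (hvr : ∃ r : ℚ, ‖v‖ = r)
    (h : ∀ n : ℕ, ∃ r : ℚ, ‖z + n * v - w‖ = r) : ((w - z) * (starRingEnd ℂ) v).im = 0 := by
  obtain ⟨b, hb⟩ := hvr
  choose ρ hρ using h
  obtain ⟨u, hu⟩ : ∃ u : ℂ, u = w - z := ⟨_, rfl⟩
  rw [← hu]
  have hb0 : (0 : ℝ) < b := by rw [← hb]; exact norm_pos_iff.2 hv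
  have hbq : 0 < b := by exact_mod_cast hb0
  have hsq : ∀ x : ℂ, ‖x‖ ^ 2 = x.re ^ 2 + x.im ^ 2 := fun x => by
    rw [← Complex.normSq_eq_norm_sq, Complex.normSq_apply]
    ring
  obtain ⟨P, hP⟩ : ∃ P : ℝ, P = v.re * u.re + v.im * u.im := ⟨_, rfl⟩
  obtain ⟨I, hI⟩ : ∃ I : ℝ, I = u.im * v.re - u.re * v.im := ⟨_, rfl⟩
  have him : (u * (starRingEnd ℂ) v).im = I := by
    rw [hI, Complex.mul_im, Complex.conj_re, Complex.conj_im]
    ring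
  rw [him]
  have hV : (b : ℝ) ^ 2 = v.re ^ 2 + v.im ^ 2 := by rw [← hb]; exact hsq v
  have hr : ∀ n : ℕ, (ρ n : ℝ) ^ 2 = n ^ 2 * (b : ℝ) ^ 2 - 2 * n * P + (u.re ^ 2 + u.im ^ 2) := by
    intro n
    rw [← hρ n, hsq, hV, hP, hu]
    have e1 : (z + n * v - w).re = n * v.re - (w - z).re := by
      simp only [Complex.sub_re, Complex.add_re, Complex.mul_re, Complex.natCast_re,
        Complex.natCast_im]
      ring
    have e2 : (z + n * v - w).im = n * v.im - (w - z).im := by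
      simp only [Complex.sub_im, Complex.add_im, Complex.mul_im, Complex.natCast_re,
        Complex.natCast_im]
      ring
    rw [e1, e2]
    ring
  have h0 : (ρ 0 : ℝ) ^ 2 = u.re ^ 2 + u.im ^ 2 := by
    have := hr 0
    simpa using this
  have h1 : (ρ 1 : ℝ) ^ 2 = (b : ℝ) ^ 2 - 2 * P + (u.re ^ 2 + u.im ^ 2) := by
    have := hr 1
    simpa using this
  obtain ⟨Pq, hPq⟩ : ∃ Pq : ℚ, Pq = (b ^ 2 + ρ 0 ^ 2 - ρ 1 ^ 2) / 2 := ⟨_, rfl⟩
  have hPc : (Pq : ℝ) = P := by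
    rw [hPq]
    push_cast
    linarith
  obtain ⟨β, hβ⟩ : ∃ β : ℚ, β = Pq / b := ⟨_, rfl⟩
  obtain ⟨γ, hγ⟩ : ∃ γ : ℚ, γ = ρ 0 ^ 2 - β ^ 2 := ⟨_, rfl⟩
  have hβb : (β : ℝ) * b = P := by
    rw [hβ]
    push_cast
    rw [hPc]
    field_simp
  have hγI : (γ : ℝ) * (b : ℝ) ^ 2 = I ^ 2 := by
    have e1 : (γ : ℝ) * (b : ℝ) ^ 2 = (ρ 0 : ℝ) ^ 2 * (b : ℝ) ^ 2 - ((β : ℝ) * b) ^ 2 := by
      rw [hγ]
      push_cast
      ring
    rw [e1, hβb, h0, hV, hP, hI]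
    ring
  by_contra hI0
  have hI2 : 0 < I ^ 2 := by positivity
  have hγ0 : (0 : ℝ) < γ := by
    by_contra hcon
    push Not at hcon
    have : (γ : ℝ) * (b : ℝ) ^ 2 ≤ 0 := mul_nonpos_of_nonpos_of_nonneg hcon (by positivity)
    linarith
  refine Tr_rat hbq (by exact_mod_cast hγ0 : 0 < γ) ρ (β := β) fun n => ?_
  have h2 : (ρ n : ℝ) ^ 2 = ((b : ℝ) * n - β) ^ 2 + γ := by
    rw [hr n, ← h0, hγ]
    push_cast
    rw [← hβb]
    ring
  exact_mod_cast h2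

end Pool.Agent.H20.RO
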