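import Pool.Agent.H20.RO.MainR
import Pool.Agent.H20.RO.SMain
import Pool.Agent.H20.RO.PRat
import Pool.Agent.H20.RO.Tr

/-!
# Module MainA: orientation preserving similarities

PROOF. `a = 1`: `T^[n] z = z + n b`, `b ≠ 0` (otherwise the orbit is `{z}`); for `w ∈ S` `translation`, `line_of_im`: `S` is on the line `z + ℝ b`. `a ≠ 1`: `f = b / (1 - a)`, `T^[n] z = f + a ^ n (z - f)`, `z ≠ f`. `‖a‖ = 1`: `a ^ n ≠ 1` for `n ≥ 1` (otherwise the orbit is finite), `rotation` for every `w ∈ S`, `w ≠ f`: `‖w - f‖ = ‖z - f‖`.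
`‖a‖ ≠ 1`, `a` real: `real_case`. `‖a‖ ≠ 1`, `a` not real: `‖a‖` is rational (quotient of `‖T² z - T z‖` and `‖T z - z‖`), `κ = ‖z - f‖`: if `‖a‖ < 1` `no_spiral` with `λ = a`, if `‖a‖ > 1` with `λ = a⁻¹` (`‖a ^ (-k) - 1‖ = ‖a‖ ^ (-k) ‖a ^ k - 1‖`).
-/

set_option autoImplicit false

open Finset Filter Topology

namespace Pool.Agent.H20.RO

private theorem mainA_one (b z : ℂ) (n : ℕ) :
    (fun u : ℂ => (1 : ℂ) * u + b)^[n] z = z + n * b := by
  induction n with
  | zero => simp
  | succ n ih =>
    rw [Function.iterate_succ_apply', ih]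
    push_cast
    ring

private theorem mainA_it {a b : ℂ} (ha : a ≠ 1) (z : ℂ) (n : ℕ) :
    (fun u : ℂ => a * u + b)^[n] z = b / (1 - a) + a ^ n * (z - b / (1 - a)) := by
  have h : (1 : ℂ) - a ≠ 0 := sub_ne_zero.2 (Ne.symm ha)
  induction n with
  | zero => simp
  | succ n ih =>
    rw [Function.iterate_succ_apply', ih]
    field_simp
    ring

private theorem mainA_fin {α : Type*} (g : ℕ → α) (n : ℕ) (hn : 1 ≤ n)
    (h : ∀ k, g k = g (k % n)) : (Set.range g).Finite := by
  apply Set.Finite.subset ((Finset.range n).finite_toSet.image g)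
  rintro _ ⟨k, rfl⟩
  refine ⟨k % n, ?_, (h k).symm⟩
  rw [Finset.mem_coe, Finset.mem_range]
  exact Nat.mod_lt _ hn

theorem main_aff {S : Set ℂ} (hS : RatDist S) {a b z : ℂ} (ha : a ≠ 0)
    (horb : ∀ n : ℕ, (fun u => a * u + b)^[n] z ∈ S)
    (hinf : (Set.range fun n : ℕ => (fun u => a * u + b)^[n] z).Infinite) :
    OnLine S ∨ OnCircle S := by
  by_cases h1 : a = 1
  · left
    subst h1
    have hb : b ≠ 0 := by
      intro hb
      apply hinf
      refine mainA_fin _ 1 (le_refl _) fun k => ?_
      show (fun u : ℂ => (1 : ℂ) * u + b)^[k] z = (fun u : ℂ => (1 : ℂ) * u + b)^[k % 1] z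
      rw [mainA_one, mainA_one, hb, mul_zero, mul_zero]
    have ho : ∀ n : ℕ, z + n * b ∈ S := by
      intro n
      have := horb n
      rwa [mainA_one] at this
    refine ⟨z, b, hb, fun w hw => ?_⟩
    apply line_of_im hb
    apply translation hb
    · obtain ⟨r, hr⟩ := hS _ (ho 1) _ (ho 0)
      refine ⟨r, ?_⟩
      rw [dist_eq_norm] at hr
      rw [← hr]
      congr 1
      push_cast
      ring
    · intro n
      obtain ⟨r, hr⟩ := hS _ (ho n) _ hw
      exact ⟨r, by rw [← hr, dist_eq_norm]⟩
  · set f := b / (1 - a) with hf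
    have ho : ∀ n : ℕ, f + a ^ n * (z - f) ∈ S := by
      intro n
      have := horb n
      rwa [mainA_it h1] at this
    have hzf : z - f ≠ 0 := by
      intro hc
      apply hinf
      refine mainA_fin _ 1 (le_refl _) fun k => ?_
      show (fun u : ℂ => a * u + b)^[k] z = (fun u : ℂ => a * u + b)^[k % 1] z
      rw [mainA_it h1, mainA_it h1, ← hf, hc, mul_zero, mul_zero]
    have hd : ∀ n m : ℕ, ∃ r : ℚ, ‖a ^ n * (z - f) - a ^ m * (z - f)‖ = r := by
      intro n m
      obtain ⟨r, hr⟩ := hS _ (ho n) _ (ho m)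
      refine ⟨r, ?_⟩
      rw [← hr, dist_eq_norm]
      congr 1
      ring
    by_cases hn : ‖a‖ = 1
    · right
      have hno : ∀ n : ℕ, 1 ≤ n → a ^ n ≠ 1 := by
        intro n hn1 hc
        apply hinf
        refine mainA_fin _ n hn1 fun k => ?_
        show (fun u : ℂ => a * u + b)^[k] z = (fun u : ℂ => a * u + b)^[k % n] z
        rw [mainA_it h1, mainA_it h1]
        have e : a ^ k = a ^ (k % n) := by
          conv_lhs => rw [← Nat.mod_add_div k n]
          rw [pow_add, pow_mul, hc, one_pow, mul_one]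
        rw [e]
      refine ⟨f, ‖z - f‖, norm_pos_iff.2 hzf, fun w hw => ?_⟩
      by_cases hwf : w = f
      · exact Or.inl hwf
      · right
        rw [dist_eq_norm]
        refine rotation hn hno hzf (sub_ne_zero.2 hwf) hd fun n => ?_
        obtain ⟨r, hr⟩ := hS _ (ho n) _ hw
        refine ⟨r, ?_⟩
        rw [← hr, dist_eq_norm]
        congr 1
        ring
    · by_cases him : a.im = 0
      · left
        have hre : ((a.re : ℝ) : ℂ) = a := by
          apply Complex.ext <;> simp [him]
        have hna : |a.re| = ‖a‖ := by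
          conv_rhs => rw [← hre]
          rw [Complex.norm_real, Real.norm_eq_abs]
        refine ⟨f, z - f, hzf, ?_⟩
        refine real_case hS (lam := a.re) ?_ ?_ hzf ?_
        · intro hc
          apply ha
          rw [← hre, hc]
          simp
        · rw [hna]
          exact hn
        · intro n
          rw [hre]
          exact ho n
      · exfalso
        have hpos : 0 < ‖z - f‖ := norm_pos_iff.2 hzf
        have hk : ∀ k : ℕ, ∃ r : ℚ, ‖z - f‖ * ‖a ^ k - 1‖ = r := by
          intro k
          obtain ⟨r, hr⟩ := hd k 0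
          refine ⟨r, ?_⟩
          rw [← hr, ← norm_mul]
          congr 1
          ring
        have hrat : ∃ r : ℚ, ‖a‖ = r := by
          obtain ⟨r1, hr1⟩ := hd 1 0
          obtain ⟨r2, hr2⟩ := hd 2 1
          have e : ‖a ^ 2 * (z - f) - a ^ 1 * (z - f)‖ =
              ‖a‖ * ‖a ^ 1 * (z - f) - a ^ 0 * (z - f)‖ := by
            rw [← norm_mul]
            congr 1
            ring
          have hne : ‖a ^ 1 * (z - f) - a ^ 0 * (z - f)‖ ≠ 0 := by
            rw [norm_ne_zero_iff, ← sub_mul]
            refine mul_ne_zero ?_ hzf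
            rw [pow_one, pow_zero]
            exact sub_ne_zero.2 h1
          refine ⟨r2 / r1, ?_⟩
          push_cast
          rw [← hr1, ← hr2, e, mul_div_assoc, div_self hne, mul_one]
        rcases lt_or_gt_of_ne hn with hlt | hgt
        · exact no_spiral him hlt hrat hpos hk
        · have ha' : a⁻¹.im ≠ 0 := by
            rw [Complex.inv_im]
            refine div_ne_zero (neg_ne_zero.2 him) ?_
            rw [Complex.normSq_eq_norm_sq]
            exact pow_ne_zero _ (norm_ne_zero_iff.2 ha)
          have hlt : ‖a⁻¹‖ < 1 := by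
            rw [norm_inv]
            exact inv_lt_one_of_one_lt₀ hgt
          obtain ⟨q, hq⟩ := hrat
          refine no_spiral ha' hlt ⟨q⁻¹, by rw [norm_inv, hq]; push_cast; rfl⟩ hpos fun k => ?_
          obtain ⟨r, hr⟩ := hk k
          refine ⟨r / q ^ k, ?_⟩
          have e : a⁻¹ ^ k - 1 = -((a ^ k - 1) / a ^ k) := by
            have : a ^ k ≠ 0 := pow_ne_zero _ ha
            rw [inv_pow]
            field_simp
            ring
          rw [e, norm_neg, norm_div, norm_pow, ← mul_div_assoc, hr, hq]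
          push_cast
          rfl

end Pool.Agent.H20.RO
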