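import Pool.Agent.H20.RO.RMain

/-!
# Module MainR: real ratio, whole set

PROOF. `ζ n = f + λ ^ n ζ`. First `λ = ± ‖λ‖` is rational: `‖ζ n+1 - ζ n‖ = |λ| ^ n |λ - 1| ‖ζ‖`, quotient of two consecutive ones is `|λ|` (`λ ≠ 1`, `ζ ≠ 0`). If `|λ| < 1`: `real_ratio` with `p = w - f`, `q = ζ` for `w ∈ S`: `Im ((w - f) conj ζ) = 0`. If `|λ| > 1`: `‖ζ - λ ^ (-n) (w - f)‖ = |λ| ^ (-n) ‖λ ^ n ζ - (w - f)‖` is rational for all `n`,
`real_ratio` with the ratio `λ⁻¹`, `p = ζ`, `q = w - f`: `Im (ζ conj (w - f)) = 0`, the same. So `w - f = t ζ` with `t = (w - f) / ζ` real (`(w - f) / ζ = (w - f) conj ζ / ‖ζ‖²`).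
-/

set_option autoImplicit false

open Finset Filter Topology

namespace Pool.Agent.H20.RO

theorem line_of_im {f ζ w : ℂ} (hζ : ζ ≠ 0) (h : ((w - f) * (starRingEnd ℂ) ζ).im = 0) :
    ∃ t : ℝ, w = f + t * ζ := by
  have hn : (Complex.normSq ζ : ℂ) ≠ 0 := by
    exact_mod_cast (Complex.normSq_pos.2 hζ).ne'
  refine ⟨((w - f) * (starRingEnd ℂ) ζ).re / Complex.normSq ζ, ?_⟩
  have h1 : ((((w - f) * (starRingEnd ℂ) ζ).re : ℝ) : ℂ) = (w - f) * (starRingEnd ℂ) ζ := by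
    refine Complex.ext (Complex.ofReal_re _) ?_
    rw [Complex.ofReal_im, h]
  rw [Complex.ofReal_div, h1]
  have h2 : (starRingEnd ℂ) ζ * ζ = (Complex.normSq ζ : ℂ) := by
    rw [mul_comm, Complex.mul_conj]
  have h3 : (w - f) * (starRingEnd ℂ) ζ / (Complex.normSq ζ : ℂ) * ζ = w - f := by
    rw [div_mul_eq_mul_div, mul_assoc, h2, mul_div_assoc, div_self hn, mul_one]
  rw [h3]
  ring

private theorem MainR_rat {S : Set ℂ} (hS : RatDist S) {lam : ℝ} (h1 : |lam| ≠ 1) {f ζ : ℂ}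
    (hζ : ζ ≠ 0) (horb : ∀ n : ℕ, f + (lam : ℂ) ^ n * ζ ∈ S) : ∃ q : ℚ, (q : ℝ) = lam := by
  have hl : lam ≠ 1 := by
    rintro rfl
    exact h1 abs_one
  obtain ⟨r0, hr0⟩ := hS _ (horb 1) _ (horb 0)
  obtain ⟨r1, hr1⟩ := hS _ (horb 2) _ (horb 1)
  have e0 : dist (f + (lam : ℂ) ^ 1 * ζ) (f + (lam : ℂ) ^ 0 * ζ) = |lam - 1| * ‖ζ‖ := by
    rw [dist_eq_norm]
    have : f + (lam : ℂ) ^ 1 * ζ - (f + (lam : ℂ) ^ 0 * ζ) = ((lam - 1 : ℝ) : ℂ) * ζ := by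
      push_cast
      ring
    rw [this, norm_mul, Complex.norm_real, Real.norm_eq_abs]
  have e1 : dist (f + (lam : ℂ) ^ 2 * ζ) (f + (lam : ℂ) ^ 1 * ζ) = |lam| * (|lam - 1| * ‖ζ‖) := by
    rw [dist_eq_norm]
    have : f + (lam : ℂ) ^ 2 * ζ - (f + (lam : ℂ) ^ 1 * ζ) =
        (lam : ℂ) * (((lam - 1 : ℝ) : ℂ) * ζ) := by
      push_cast
      ring
    rw [this, norm_mul, norm_mul, Complex.norm_real, Complex.norm_real, Real.norm_eq_abs,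
      Real.norm_eq_abs]
  rw [e0] at hr0
  rw [e1, hr0] at hr1
  have hp : (0 : ℝ) < r0 := by
    rw [← hr0]
    exact mul_pos (abs_pos.2 (sub_ne_zero.2 hl)) (norm_pos_iff.2 hζ)
  have h2 : |lam| = ((r1 / r0 : ℚ) : ℝ) := by
    rw [Rat.cast_div, eq_div_iff hp.ne']
    exact hr1
  rcases abs_choice lam with h | h
  · exact ⟨r1 / r0, by rw [← h2, h]⟩
  · refine ⟨-(r1 / r0), ?_⟩
    rw [Rat.cast_neg, ← h2, h, neg_neg]

theorem real_case {S : Set ℂ} (hS : RatDist S) {lam : ℝ} (h0 : lam ≠ 0) (h1 : |lam| ≠ 1) {f ζ : ℂ}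
    (hζ : ζ ≠ 0) (horb : ∀ n : ℕ, f + (lam : ℂ) ^ n * ζ ∈ S) :
    ∀ w ∈ S, ∃ t : ℝ, w = f + t * ζ := by
  obtain ⟨q, rfl⟩ := MainR_rat hS h1 hζ horb
  have hq0 : q ≠ 0 := by
    rintro rfl
    exact h0 Rat.cast_zero
  have hq1 : |q| ≠ 1 := by
    intro h
    apply h1
    rw [← Rat.cast_abs, h, Rat.cast_one]
  intro w hw
  apply line_of_im hζ
  have hd : ∀ n : ℕ, ∃ r : ℚ, ‖(w - f) - (((q ^ n : ℚ)) : ℂ) * ζ‖ = r := by
    intro n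
    obtain ⟨r, hr⟩ := hS _ hw _ (horb n)
    refine ⟨r, ?_⟩
    rw [← hr, dist_eq_norm]
    congr 1
    push_cast
    ring
  rcases lt_or_gt_of_ne hq1 with h | h
  · exact real_ratio hq0 h hd
  · have h2 : |q⁻¹| < 1 := by
      rw [abs_inv]
      exact inv_lt_one_of_one_lt₀ h
    have h3 := real_ratio (inv_ne_zero hq0) h2 (p := ζ) (q := w - f) (by
      intro n
      obtain ⟨r, hr⟩ := hd n
      refine ⟨|(q⁻¹) ^ n| * r, ?_⟩
      have hqc : ((q ^ n : ℚ) : ℂ) ≠ 0 := by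
        exact_mod_cast pow_ne_zero n hq0
      have e : ζ - (((q⁻¹ ^ n : ℚ)) : ℂ) * (w - f) =
          -(((q⁻¹ ^ n : ℚ)) : ℂ) * ((w - f) - (((q ^ n : ℚ)) : ℂ) * ζ) := by
        have e2 : (((q⁻¹ ^ n : ℚ)) : ℂ) * (((q ^ n : ℚ)) : ℂ) = 1 := by
          rw [← Rat.cast_mul, ← mul_pow, inv_mul_cancel₀ hq0, one_pow, Rat.cast_one]
        linear_combination (-ζ) * e2
      rw [e, norm_mul, hr, norm_neg]
      rw [Rat.cast_mul]
      congr 1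
      rw [Rat.cast_abs]
      have e3 : (((q⁻¹ ^ n : ℚ)) : ℂ) = ((((q⁻¹ ^ n : ℚ)) : ℝ) : ℂ) := by
        push_cast
        rfl
      rw [e3, Complex.norm_real, Real.norm_eq_abs])
    have h4 : (w - f) * (starRingEnd ℂ) ζ = (starRingEnd ℂ) (ζ * (starRingEnd ℂ) (w - f)) := by
      rw [map_mul, Complex.conj_conj, mul_comm]
    rw [h4, Complex.conj_im, h3, neg_zero]

end Pool.Agent.H20.RO
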