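import Pool.Agent.H20.RO.App

/-!
# Module PExp: recurrences in the p-adic numbers

PROOFS. `z * (t - z) = 1`, so `z⁻¹ = t - z`, `z + z⁻¹ = t`, `z - z⁻¹ ≠ 0` (`‖z‖ < 1 < ‖z⁻¹‖`). `rec_exp`: `α = (y 1 - y 0 z⁻¹) / (z - z⁻¹)`, `β = (y 0 z - y 1) / (z - z⁻¹)`; two-step induction (`z² = t z - 1`, `z⁻² = t z⁻¹ - 1`); `(z - z⁻¹)² = t² - 4`. `tau_p`: `S n = z ^ n + (z⁻¹) ^ n` is rational: `S 0 = 2`, `S 1 = t`,
`S (n + 2) = t S (n + 1) - S n`; `z ^ (2 l) z⁻¹` is `z ^ (2 l - 1)` for `l ≥ 1` and `z⁻¹` for `l = 0`. `kill_p`: `Q = ∏ l ∈ range (L + 1), (X² - C τ_l X + 1)`; the factor at `μ` is `(μ - v_l) (μ - v_l⁻¹)`, `v_l = z ^ (2 l) z⁻¹`; norms: `‖v_l‖ = ‖z‖ ^ (2 l) / ‖z‖`; `v_(L+1)` has norm `‖z‖ ^ (2 L + 1)`,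
different from the norms of `v_l ^ (± 1)`, `l ≤ L` (those are `‖z‖ ^ (± (2 l - 1))`, and `2 L + 1 > 1` because `L ≥ 1`).
-/

set_option autoImplicit false

open Finset Filter Topology

namespace Pool.Agent.H20.RO

private theorem PExp_mul {p : ℕ} [Fact p.Prime] {t : ℚ} {z : ℚ_[p]}
    (hz : z ^ 2 - (t : ℚ_[p]) * z + 1 = 0) : z⁻¹ = t - z := by
  have h : z * (t - z) = 1 := by linear_combination -hz
  exact inv_eq_of_mul_eq_one_right h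

theorem rec_exp {p : ℕ} [Fact p.Prime] {t : ℚ} {z : ℚ_[p]} (hz0 : z ≠ 0) (hz1 : ‖z‖ < 1)
    (hz : z ^ 2 - (t : ℚ_[p]) * z + 1 = 0) {y : ℕ → ℚ} (hy : ∀ n, y (n + 2) = t * y (n + 1) - y n) :
    ∃ α β : ℚ_[p], (∀ n, ((y n : ℚ) : ℚ_[p]) = α * z ^ n + β * (z⁻¹) ^ n) ∧
      α * β * ((4 - t ^ 2 : ℚ) : ℚ_[p]) = ((y 1 ^ 2 - t * y 0 * y 1 + y 0 ^ 2 : ℚ) : ℚ_[p]) := by
  have hzi := PExp_mul hz
  have hzz : z * z⁻¹ = 1 := mul_inv_cancel₀ hz0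
  have hw : (z⁻¹) ^ 2 = (t : ℚ_[p]) * z⁻¹ - 1 := by
    have h1 : (t : ℚ_[p]) = z + z⁻¹ := by rw [hzi]; ring
    rw [h1]
    linear_combination -hzz
  have hne : z - z⁻¹ ≠ 0 := by
    intro h
    have h1 : z = z⁻¹ := sub_eq_zero.1 h
    have h2 : z * z = 1 := by
      nth_rewrite 2 [h1]
      exact hzz
    have h3 : ‖z‖ * ‖z‖ = 1 := by rw [← norm_mul, h2, norm_one]
    have h4 : 0 ≤ ‖z‖ := norm_nonneg z
    nlinarith
  refine ⟨((y 1 : ℚ_[p]) - y 0 * z⁻¹) / (z - z⁻¹), ((y 0 : ℚ_[p]) * z - y 1) / (z - z⁻¹), ?_, ?_⟩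
  · have key : ∀ n, ((y n : ℚ) : ℚ_[p]) = ((y 1 : ℚ_[p]) - y 0 * z⁻¹) / (z - z⁻¹) * z ^ n +
          ((y 0 : ℚ_[p]) * z - y 1) / (z - z⁻¹) * (z⁻¹) ^ n ∧
        ((y (n + 1) : ℚ) : ℚ_[p]) = ((y 1 : ℚ_[p]) - y 0 * z⁻¹) / (z - z⁻¹) * z ^ (n + 1) +
          ((y 0 : ℚ_[p]) * z - y 1) / (z - z⁻¹) * (z⁻¹) ^ (n + 1) := by
      intro n
      induction n with
      | zero =>
        constructor
        · rw [pow_zero, pow_zero, mul_one, mul_one, ← add_div, eq_div_iff hne]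
          ring
        · rw [zero_add, pow_one, pow_one, div_mul_eq_mul_div, div_mul_eq_mul_div, ← add_div,
            eq_div_iff hne]
          linear_combination (-(0 : ℚ_[p])) * hzz
      | succ n ih =>
        refine ⟨ih.2, ?_⟩
        rw [hy n]
        push_cast
        rw [ih.1, ih.2]
        have e1 : z ^ (n + 1 + 1) = z ^ n * (t * z - 1) := by
          have : z ^ 2 = t * z - 1 := by linear_combination hz
          rw [← this]; ring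
        have e2 : (z⁻¹) ^ (n + 1 + 1) = (z⁻¹) ^ n * (t * z⁻¹ - 1) := by
          rw [← hw]; ring
        rw [e1, e2, pow_succ, pow_succ]
        ring
    exact fun n => (key n).1
  · have hsq : (z - z⁻¹) ^ 2 = (t : ℚ_[p]) ^ 2 - 4 := by
      have h1 : (t : ℚ_[p]) = z + z⁻¹ := by rw [hzi]; ring
      rw [h1]
      linear_combination -(4 : ℚ_[p]) * hzz
    have h5 : ((y 1 : ℚ_[p]) - y 0 * z⁻¹) / (z - z⁻¹) * (((y 0 : ℚ_[p]) * z - y 1) / (z - z⁻¹)) *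
        (4 - (t : ℚ_[p]) ^ 2) = -(((y 1 : ℚ_[p]) - y 0 * z⁻¹) * ((y 0 : ℚ_[p]) * z - y 1)) := by
      have h6 : (4 - (t : ℚ_[p]) ^ 2) = -(z - z⁻¹) ^ 2 := by rw [hsq]; ring
      rw [h6, div_mul_div_comm, mul_neg, ← sq (z - z⁻¹),
        div_mul_cancel₀ _ (pow_ne_zero 2 hne)]
    push_cast
    rw [h5]
    have h1 : (t : ℚ_[p]) = z + z⁻¹ := by rw [hzi]; ring
    rw [h1]
    linear_combination ((y 0 : ℚ_[p]) ^ 2) * hzz

private theorem PExp_S {p : ℕ} [Fact p.Prime] {t : ℚ} {z : ℚ_[p]} (hz0 : z ≠ 0)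
    (hz : z ^ 2 - (t : ℚ_[p]) * z + 1 = 0) (n : ℕ) :
    (∃ x : ℚ, z ^ n + (z⁻¹) ^ n = (x : ℚ_[p])) ∧ ∃ x : ℚ, z ^ (n + 1) + (z⁻¹) ^ (n + 1) = (x : ℚ_[p]) := by
  have hzi := PExp_mul hz
  have hzz : z * z⁻¹ = 1 := mul_inv_cancel₀ hz0
  have ht : (t : ℚ_[p]) = z + z⁻¹ := by rw [hzi]; ring
  induction n with
  | zero =>
    refine ⟨⟨2, ?_⟩, ⟨t, ?_⟩⟩
    · push_cast
      norm_num
    · rw [zero_add, pow_one, pow_one, ht]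
  | succ n ih =>
    obtain ⟨⟨x, hx⟩, x', hx'⟩ := ih
    refine ⟨⟨x', hx'⟩, ⟨t * x' - x, ?_⟩⟩
    push_cast
    rw [← hx, ← hx', ht]
    have e1 : z ^ (n + 1 + 1) = z ^ n * z * z := by ring
    have e2 : (z⁻¹) ^ (n + 1 + 1) = (z⁻¹) ^ n * z⁻¹ * z⁻¹ := by ring
    have e3 : z ^ (n + 1) = z ^ n * z := by ring
    have e4 : (z⁻¹) ^ (n + 1) = (z⁻¹) ^ n * z⁻¹ := by ring
    rw [e1, e2, e3, e4]
    linear_combination (-(z ^ n) - (z⁻¹) ^ n) * hzz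

theorem tau_p {p : ℕ} [Fact p.Prime] {t : ℚ} {z : ℚ_[p]} (hz0 : z ≠ 0)
    (hz : z ^ 2 - (t : ℚ_[p]) * z + 1 = 0) (l : ℕ) :
    ∃ x : ℚ, z ^ (2 * l) * z⁻¹ + (z ^ (2 * l) * z⁻¹)⁻¹ = (x : ℚ_[p]) := by
  have hzi := PExp_mul hz
  rcases l with _ | m
  · refine ⟨t, ?_⟩
    rw [mul_zero, pow_zero, one_mul, inv_inv, hzi]
    ring
  · obtain ⟨x, hx⟩ := (PExp_S hz0 hz (2 * m + 1)).1
    refine ⟨x, ?_⟩
    have e1 : z ^ (2 * (m + 1)) * z⁻¹ = z ^ (2 * m + 1) := by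
      rw [show 2 * (m + 1) = (2 * m + 1) + 1 by ring, pow_succ, mul_assoc, mul_inv_cancel₀ hz0,
        mul_one]
    rw [e1, ← inv_pow]
    exact hx

theorem kill_p {p : ℕ} [Fact p.Prime] {t : ℚ} {z : ℚ_[p]} (hz0 : z ≠ 0) (hz1 : ‖z‖ < 1)
    (hz : z ^ 2 - (t : ℚ_[p]) * z + 1 = 0) {L : ℕ} (hL : 1 ≤ L) :
    ∃ Q : Polynomial ℚ,
      (∀ l ≤ L, Q.eval₂ (Rat.castHom ℚ_[p]) (z ^ (2 * l) * z⁻¹) = 0) ∧
      Q.eval₂ (Rat.castHom ℚ_[p]) (z ^ (2 * (L + 1)) * z⁻¹) ≠ 0 := by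
  choose τ hτ using fun l => tau_p hz0 hz l
  have hev : ∀ μ : ℚ_[p], (∏ l ∈ range (L + 1), (Polynomial.X ^ 2 - Polynomial.C (τ l) *
      Polynomial.X + 1)).eval₂ (Rat.castHom ℚ_[p]) μ =
      ∏ l ∈ range (L + 1), ((μ - z ^ (2 * l) * z⁻¹) * (μ - (z ^ (2 * l) * z⁻¹)⁻¹)) := by
    intro μ
    rw [Polynomial.eval₂_finsetProd]
    refine Finset.prod_congr rfl fun l _ => ?_
    have hv0 : z ^ (2 * l) * z⁻¹ ≠ 0 := mul_ne_zero (pow_ne_zero _ hz0) (inv_ne_zero hz0)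
    have hvv : (z ^ (2 * l) * z⁻¹) * (z ^ (2 * l) * z⁻¹)⁻¹ = 1 := mul_inv_cancel₀ hv0
    simp only [Polynomial.eval₂_add, Polynomial.eval₂_sub, Polynomial.eval₂_mul,
      Polynomial.eval₂_pow, Polynomial.eval₂_X, Polynomial.eval₂_C, Polynomial.eval₂_one,
      Rat.coe_castHom]
    rw [← hτ l]
    linear_combination -hvv
  refine ⟨∏ l ∈ range (L + 1), (Polynomial.X ^ 2 - Polynomial.C (τ l) * Polynomial.X + 1),
    fun l hl => ?_, ?_⟩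
  · rw [hev]
    refine Finset.prod_eq_zero (mem_range.2 (Nat.lt_succ_of_le hl)) ?_
    rw [sub_self, zero_mul]
  · rw [hev]
    refine Finset.prod_ne_zero_iff.2 fun l hl => ?_
    have hlL : l ≤ L := Nat.lt_succ_iff.1 (mem_range.1 hl)
    set c := ‖z‖ with hc
    have hc0 : 0 < c := norm_pos_iff.2 hz0
    have hnv : ∀ m : ℕ, ‖z ^ (2 * m) * z⁻¹‖ = c ^ (2 * m) * c⁻¹ := fun m => by
      rw [norm_mul, norm_pow, norm_inv]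
    have hbig : c ^ (2 * (L + 1)) * c⁻¹ < c ^ (2 * l) * c⁻¹ := by
      refine mul_lt_mul_of_pos_right ?_ (inv_pos.2 hc0)
      exact pow_lt_pow_right_of_lt_one₀ hc0 hz1 (by omega)
    have hbig2 : c ^ (2 * (L + 1)) * c⁻¹ < (c ^ (2 * l) * c⁻¹)⁻¹ := by
      have h1 : c ^ (2 * (L + 1)) * c⁻¹ < c := by
        rw [← div_eq_mul_inv, div_lt_iff₀ hc0]
        calc c ^ (2 * (L + 1)) < c ^ 2 := pow_lt_pow_right_of_lt_one₀ hc0 hz1 (by omega)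
          _ = c * c := by ring
      have h2 : c ≤ (c ^ (2 * l) * c⁻¹)⁻¹ := by
        rw [mul_inv, inv_inv]
        have h3 : 1 ≤ (c ^ (2 * l))⁻¹ :=
          (one_le_inv₀ (by positivity)).2 (pow_le_one₀ hc0.le hz1.le)
        nlinarith
      linarith
    refine mul_ne_zero (fun h => ?_) (fun h => ?_)
    · have h1 := congrArg norm (sub_eq_zero.1 h)
      rw [hnv, hnv] at h1
      linarith
    · have h1 := congrArg norm (sub_eq_zero.1 h)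
      rw [norm_inv, hnv, hnv] at h1
      linarith

end Pool.Agent.H20.RO
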