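import Pool.Agent.H20.RO.PExp
import Pool.Agent.H20.RO.Ser

/-!
# Module PFac: p-adic expansion of the distances

PROOF. `α, β` from `rec_exp`; by `hdisc` and `4 - t² ≠ 0`: `α β = R2 W2` (in `ℚ_[p]`), so `α, β ≠ 0`. `c1 = α / R2`, `c2 = R2 / β`; `c1 = c2` would give `α β = R2²`, so `W2 = R2`. For `x = z ^ n`: `s n ^ 2 = R2 + W2 - α x - β x⁻¹ = -(β / x) (1 - c1 x) (1 - c2 x)` (expand: `β c1 = W2`, `β c2 = R2`, `β c1 c2 = α`).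
For `m ≥ m0`: `‖c1‖ ‖z‖ ^ (2 m) < 1`, `‖c2‖ ‖z‖ ^ (2 m) < 1`. Put `x = z ^ (2 m)`, `G m = EE (c1 / 4 * x) * EE (c2 / 4 * x)` (the hypothesis `4 ‖c / 4 * x‖ < 1`; note that `‖c1 / 4‖` may be `4 ‖c1‖` for `p = 2`: take `m0` so large that `4 ‖c1 / 4‖ ‖x‖ < 1`), `G m ^ 2 = (1 - c1 x) (1 - c2 x) ≠ 0` (`EE_sq`; norms `< 1`). So
`(s (2 m) z ^ m / G m) ^ 2 = -β`. Let `σ = s (2 m0) z ^ m0 / G m0` (`σ ≠ 0`); for `m ≥ m0`, `s (2 m) z ^ m / G m = ± σ`; let `s' m = ± s (2 m)` with the same sign (for `m < m0`: `s' m = s (2 m)`). Then `s' m = σ G m (z⁻¹) ^ m`, and `cc_sum` with `y = z ^ (2 m)` gives the series: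
`cc l * (z ^ (2 m)) ^ l * (z⁻¹) ^ m = cc l * (z ^ (2 l) * z⁻¹) ^ m`.
-/

set_option autoImplicit false

open Finset Filter Topology

namespace Pool.Agent.H20.RO

private lemma pfac_sq {K : Type*} [Field K] {α β x R W : K} (hβ : β ≠ 0) (hR : R ≠ 0) (hx : x ≠ 0)
    (h : α * β = R * W) :
    R + W - (α * x + β * x⁻¹) = -(β / x) * ((1 - α / R * x) * (1 - R / β * x)) := by
  have hW : W = α * β / R := by
    rw [h]
    field_simp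
  rw [hW]
  field_simp
  ring

private lemma pfac_ne {p : ℕ} [Fact p.Prime] {w : ℚ_[p]} (h : ‖w‖ < 1) : 1 - w ≠ 0 := by
  intro h0
  have h1 : w = 1 := (sub_eq_zero.1 h0).symm
  rw [h1, norm_one] at h
  exact lt_irrefl _ h

theorem p_fac {p : ℕ} [Fact p.Prime] {t : ℚ} {z : ℚ_[p]} (hz0 : z ≠ 0) (hz1 : ‖z‖ < 1)
    (hz : z ^ 2 - (t : ℚ_[p]) * z + 1 = 0) (ht : t ^ 2 ≠ 4) {R2 W2 : ℚ} (hR : 0 < R2) (hW : 0 < W2)
    (hRW : R2 ≠ W2) {y s : ℕ → ℚ} (hy : ∀ n, y (n + 2) = t * y (n + 1) - y n)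
    (hs : ∀ n, s n ^ 2 = R2 + W2 - y n)
    (hdisc : y 1 ^ 2 - t * y 0 * y 1 + y 0 ^ 2 = (4 - t ^ 2) * (R2 * W2)) :
    ∃ (σ a b : ℚ_[p]) (s' : ℕ → ℚ) (m0 : ℕ), σ ≠ 0 ∧ a ≠ b ∧ (∀ m, |s' m| = |s (2 * m)|) ∧
      ∀ m ≥ m0, HasSum (fun l => σ * cc a b l * (z ^ (2 * l) * z⁻¹) ^ m) ((s' m : ℚ) : ℚ_[p]) := by
  classical
  obtain ⟨α, β, hyn, hab⟩ := rec_exp hz0 hz1 hz hy
  have h4 : ((4 - t ^ 2 : ℚ) : ℚ_[p]) ≠ 0 := by
    intro h0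
    have h1 : (4 - t ^ 2 : ℚ) = 0 := by exact_mod_cast h0
    exact ht (by linarith)
  have hR0 : ((R2 : ℚ) : ℚ_[p]) ≠ 0 := by exact_mod_cast hR.ne'
  have hW0 : ((W2 : ℚ) : ℚ_[p]) ≠ 0 := by exact_mod_cast hW.ne'
  have hαβ : α * β = (R2 : ℚ_[p]) * (W2 : ℚ_[p]) := by
    have h1 : α * β * ((4 - t ^ 2 : ℚ) : ℚ_[p]) =
        ((R2 : ℚ_[p]) * (W2 : ℚ_[p])) * ((4 - t ^ 2 : ℚ) : ℚ_[p]) := by
      rw [hab, hdisc, Rat.cast_mul, Rat.cast_mul]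
      ring
    exact mul_right_cancel₀ h4 h1
  have hne : α * β ≠ 0 := by
    rw [hαβ]
    exact mul_ne_zero hR0 hW0
  have hα : α ≠ 0 := left_ne_zero_of_mul hne
  have hβ : β ≠ 0 := right_ne_zero_of_mul hne
  set c1 : ℚ_[p] := α / R2 with hc1
  set c2 : ℚ_[p] := R2 / β with hc2
  have hfour : (4 : ℚ_[p]) ≠ 0 := by
    have : ((4 : ℚ) : ℚ_[p]) ≠ 0 := by exact_mod_cast (by norm_num : (4 : ℚ) ≠ 0)
    simpa using this
  have hc12 : c1 / 4 ≠ c2 / 4 := by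
    intro h0
    have h1 : c1 = c2 := by
      have := congrArg (fun u => u * 4) h0
      simpa [div_mul_cancel₀ _ hfour] using this
    rw [hc1, hc2, div_eq_div_iff hR0 hβ, hαβ] at h1
    have h2 : (W2 : ℚ_[p]) = R2 := mul_left_cancel₀ hR0 h1
    exact hRW (by exact_mod_cast h2.symm)
  -- the threshold
  set M : ℝ := 4 * ‖c1 / 4‖ + 4 * ‖c2 / 4‖ + ‖c1‖ + ‖c2‖ with hM
  have hM0 : 0 ≤ M := by positivity
  have htend : Tendsto (fun m : ℕ => M * ‖z‖ ^ (2 * m)) atTop (𝓝 (M * 0)) := by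
    refine Tendsto.const_mul M ?_
    have h1 : Tendsto (fun m : ℕ => (‖z‖ ^ 2) ^ m) atTop (𝓝 0) :=
      tendsto_pow_atTop_nhds_zero_of_lt_one (by positivity)
        (pow_lt_one₀ (norm_nonneg z) hz1 two_ne_zero)
    exact h1.congr fun m => by rw [pow_mul]
  rw [mul_zero] at htend
  obtain ⟨m0, hm0⟩ := eventually_atTop.1 (htend.eventually (gt_mem_nhds one_pos))
  have hbound : ∀ m ≥ m0, ∀ w : ℚ_[p], ∀ k : ℝ, k * ‖w‖ ≤ M → k * ‖w * z ^ (2 * m)‖ < 1 := by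
    intro m hm w k hk
    have h1 := hm0 m hm
    rw [norm_mul, norm_pow, ← mul_assoc]
    exact lt_of_le_of_lt (mul_le_mul_of_nonneg_right hk (by positivity)) h1
  have hn1 := norm_nonneg (c1 / 4)
  have hn2 := norm_nonneg (c2 / 4)
  have hn3 := norm_nonneg c1
  have hn4 := norm_nonneg c2
  have ha : ∀ m ≥ m0, 4 * ‖c1 / 4 * z ^ (2 * m)‖ < 1 := fun m hm =>
    hbound m hm _ 4 (by rw [hM]; linarith)
  have hb : ∀ m ≥ m0, 4 * ‖c2 / 4 * z ^ (2 * m)‖ < 1 := fun m hm =>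
    hbound m hm _ 4 (by rw [hM]; linarith)
  have ha' : ∀ m ≥ m0, ‖c1 * z ^ (2 * m)‖ < 1 := fun m hm => by
    have := hbound m hm c1 1 (by rw [hM]; linarith)
    rwa [one_mul] at this
  have hb' : ∀ m ≥ m0, ‖c2 * z ^ (2 * m)‖ < 1 := fun m hm => by
    have := hbound m hm c2 1 (by rw [hM]; linarith)
    rwa [one_mul] at this
  set G : ℕ → ℚ_[p] := fun m => EE (c1 / 4 * z ^ (2 * m)) * EE (c2 / 4 * z ^ (2 * m)) with hG
  have hG2 : ∀ m ≥ m0, G m ^ 2 = (1 - c1 * z ^ (2 * m)) * (1 - c2 * z ^ (2 * m)) := by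
    intro m hm
    have e1 := EE_sq (he_padic p) (ha m hm)
    have e2 := EE_sq (he_padic p) (hb m hm)
    have e3 : (4 : ℚ_[p]) * (c1 / 4 * z ^ (2 * m)) = c1 * z ^ (2 * m) := by
      rw [← mul_assoc, mul_div_cancel₀ _ hfour]
    have e4 : (4 : ℚ_[p]) * (c2 / 4 * z ^ (2 * m)) = c2 * z ^ (2 * m) := by
      rw [← mul_assoc, mul_div_cancel₀ _ hfour]
    rw [e3] at e1
    rw [e4] at e2
    simp only [hG]
    rw [mul_pow, e1, e2]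
  have hG0 : ∀ m ≥ m0, G m ≠ 0 := by
    intro m hm h0
    have h1 := hG2 m hm
    rw [h0] at h1
    have h2 := mul_ne_zero (pfac_ne (ha' m hm)) (pfac_ne (hb' m hm))
    exact h2 (by rw [← h1]; ring)
  have hsq : ∀ m ≥ m0, (((s (2 * m) : ℚ) : ℚ_[p]) * z ^ m / G m) ^ 2 = -β := by
    intro m hm
    have hx : z ^ (2 * m) ≠ 0 := pow_ne_zero _ hz0
    have h1 : ((s (2 * m) : ℚ) : ℚ_[p]) ^ 2 =
        (R2 : ℚ_[p]) + W2 - (α * z ^ (2 * m) + β * (z ^ (2 * m))⁻¹) := by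
      have h2 : ((s (2 * m) : ℚ) : ℚ_[p]) ^ 2 = (((s (2 * m)) ^ 2 : ℚ) : ℚ_[p]) := by push_cast; ring
      rw [h2, hs (2 * m), Rat.cast_sub, Rat.cast_add, hyn (2 * m), inv_pow]
    rw [pfac_sq hβ hR0 hx hαβ, ← hc1, ← hc2, ← hG2 m hm] at h1
    have h3 : (z ^ m) ^ 2 = z ^ (2 * m) := by rw [← pow_mul, mul_comm]
    rw [div_pow, mul_pow, h1, h3]
    have h4 := hG0 m hm
    field_simp
  set σ : ℚ_[p] := ((s (2 * m0) : ℚ) : ℚ_[p]) * z ^ m0 / G m0 with hσ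
  have hσ0 : σ ≠ 0 := by
    intro h0
    have h1 := hsq m0 le_rfl
    rw [← hσ, h0] at h1
    exact hβ (neg_eq_zero.1 (by rw [← h1]; ring))
  set s' : ℕ → ℚ := fun m =>
    if ((s (2 * m) : ℚ) : ℚ_[p]) * z ^ m / G m = σ then s (2 * m) else -s (2 * m) with hs'
  have hval : ∀ m ≥ m0, ((s' m : ℚ) : ℚ_[p]) * z ^ m / G m = σ := by
    intro m hm
    have h1 : (((s (2 * m) : ℚ) : ℚ_[p]) * z ^ m / G m) ^ 2 = σ ^ 2 := by
      rw [hsq m hm, hσ, hsq m0 le_rfl]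
    by_cases h2 : ((s (2 * m) : ℚ) : ℚ_[p]) * z ^ m / G m = σ
    · simp only [hs', if_pos h2]
      exact h2
    · simp only [hs', if_neg h2]
      have h3 := (sq_eq_sq_iff_eq_or_eq_neg.1 h1).resolve_left h2
      push_cast
      rw [neg_mul, neg_div, h3, neg_neg]
  refine ⟨σ, c1 / 4, c2 / 4, s', m0, hσ0, hc12, fun m => ?_, fun m hm => ?_⟩
  · simp only [hs']
    split_ifs
    · rfl
    · exact abs_neg _
  · have h1 := (cc_sum (he_padic p) (ha m hm) (hb m hm)).mul_left (σ * (z⁻¹) ^ m)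
    have h2 : σ * (z⁻¹) ^ m * (EE (c1 / 4 * z ^ (2 * m)) * EE (c2 / 4 * z ^ (2 * m))) =
        ((s' m : ℚ) : ℚ_[p]) := by
      have h3 := hval m hm
      have h4 := hG0 m hm
      have h5 : z ^ m ≠ 0 := pow_ne_zero _ hz0
      have h6 : EE (c1 / 4 * z ^ (2 * m)) * EE (c2 / 4 * z ^ (2 * m)) = G m := rfl
      rw [h6, ← h3, inv_pow]
      field_simp
    rw [h2] at h1
    refine h1.congr_fun ?_
    intro l
    have h7 : (z ^ (2 * l) * z⁻¹) ^ m = (z ^ (2 * m)) ^ l * (z⁻¹) ^ m := by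
      rw [mul_pow, ← pow_mul, ← pow_mul]
      congr 2
      ring
    rw [h7]
    ring

end Pool.Agent.H20.RO
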