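import Pool.Agent.H20.RO.App

/-!
# Module PInt: denominators, rotation

PROOF. `B = t.den`, `Y n = c B ^ n y n` is an integer for all `n`, where `c > 0` is a common denominator of `A, y 0, y 1`: `Y (n + 2) = (B t) Y (n + 1) - B² Y n`. `(c B ^ m s (2 m))² = c (c B ^ (2 m) (A - y (2 m)))` is an integer; `int_of_sq`, `N = c`.
-/

set_option autoImplicit false

open Finset Filter Topology

namespace Pool.Agent.H20.RO

private theorem pInt_den (x : ℚ) : ((x.den : ℕ) : ℚ) * x = ((x.num : ℤ) : ℚ) := by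
  rw [mul_comm]
  exact Rat.mul_den_eq_num x

private theorem pInt_rec {t : ℚ} {y : ℕ → ℚ} (hy : ∀ n, y (n + 2) = t * y (n + 1) - y n) {c : ℕ}
    (h0 : ∃ k : ℤ, (c : ℚ) * y 0 = k) (h1 : ∃ k : ℤ, (c : ℚ) * y 1 = k) (n : ℕ) :
    (∃ k : ℤ, (c : ℚ) * (t.den : ℚ) ^ n * y n = k) ∧
      ∃ k : ℤ, (c : ℚ) * (t.den : ℚ) ^ (n + 1) * y (n + 1) = k := by
  induction n with
  | zero =>
    obtain ⟨k0, h0⟩ := h0
    obtain ⟨k1, h1⟩ := h1
    refine ⟨⟨k0, ?_⟩, ⟨(t.den : ℤ) * k1, ?_⟩⟩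
    · rw [pow_zero, mul_one]
      exact h0
    · push_cast
      rw [← h1, pow_one]
      ring
  | succ n ih =>
    obtain ⟨⟨k0, h0⟩, ⟨k1, h1⟩⟩ := ih
    refine ⟨⟨k1, h1⟩, ⟨t.num * k1 - (t.den : ℤ) ^ 2 * k0, ?_⟩⟩
    have ht := pInt_den t
    have e : n + 1 + 1 = n + 2 := rfl
    rw [e, hy n]
    push_cast
    rw [← h1, ← h0, ← ht]
    ring

theorem rot_int {t A : ℚ} {y s : ℕ → ℚ} (hy : ∀ n, y (n + 2) = t * y (n + 1) - y n)
    (hs : ∀ n, s n ^ 2 = A - y n) :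
    ∃ N : ℕ, 0 < N ∧ ∀ m, ∃ k : ℤ, (N : ℚ) * (t.den : ℚ) ^ m * s (2 * m) = k := by
  have hA := pInt_den A
  have h0 := pInt_den (y 0)
  have h1 := pInt_den (y 1)
  refine ⟨A.den * (y 0).den * (y 1).den, by positivity, fun m => ?_⟩
  have hr := (pInt_rec (c := A.den * (y 0).den * (y 1).den) hy
    ⟨(A.den : ℤ) * (y 1).den * (y 0).num, by push_cast; rw [← h0]; ring⟩
    ⟨(A.den : ℤ) * (y 0).den * (y 1).num, by push_cast; rw [← h1]; ring⟩ (2 * m)).1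
  obtain ⟨k, hk⟩ := hr
  refine int_of_sq (k := ((A.den * (y 0).den * (y 1).den : ℕ) : ℤ) *
    ((t.den : ℤ) ^ (2 * m) * (((y 0).den : ℤ) * (y 1).den * A.num) - k)) ?_
  rw [mul_pow, hs, mul_pow, ← pow_mul]
  push_cast at hk ⊢
  rw [← hk, ← hA, mul_comm m 2]
  ring

end Pool.Agent.H20.RO
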