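import Pool.Agent.H20.RO.PRoot
import Pool.Agent.H20.RO.PFac
import Pool.Agent.H20.RO.PInt
import Pool.Agent.H20.RO.Cc
import Pool.Agent.H20.RO.Lead

/-!
# Module PMain: rational data of a rotation

PROOF. Suppose `R2 ≠ W2`. `p, z` from `p_root`, `σ, a, b, s', m0` from `p_fac`. `|s' m| ≤ C`. `B = t.den`, `N` from `rot_int` (also for `s'`: `s' m = ± s (2 m)`). Choose `L ≥ 1` with `B ‖z‖ ^ (2 L + 1) < 1` and `cc a b (L + 1) ≠ 0` (`cc_inf`: arbitrarily large `l = L + 1`). `Q` from `kill_p`. `app_hasSum` for `m ≥ m0`: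
`app Q s' m = ∑_l σ cc a b l Q(v_l) v_l ^ m`, `v_l = z ^ (2 l) z⁻¹`, so `app Q s' m * z ^ m = ∑_l f l ((z ^ 2) ^ m) ^ l`, `f l = σ cc a b l Q(v_l)`, `f l = 0` for `l ≤ L`, `f (L + 1) ≠ 0`, `‖f l‖ ≤ A R ^ l` (`cc_norm`; `eval_bound` for `l ≥ 1`, where `‖v_l‖ ≤ 1`; `f 0 = 0`). `lead` with `x = z ^ 2`: for `m ≥ m1`,
`app Q s' m ≠ 0` and `‖app Q s' m‖ ‖z‖ ^ m ≤ 2 ‖f (L+1)‖ ‖z‖ ^ (2 m (L + 1))`. `V = M B ^ m app Q s' m` (`app_int`) is an integer, not `0`: `1 ≤ |V| ‖V‖_p` (`V = p ^ v V'`, `‖V‖ = p ^ (-v)`). `|V| ≤ M B ^ m C'` (`app_bound`), `‖V‖_p ≤ ‖app Q s' m‖_p ≤ 2 ‖f (L+1)‖ ‖z‖ ^ ((2 L + 1) m)`. So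
`1 ≤ 2 M C' ‖f (L+1)‖ (B ‖z‖ ^ (2 L + 1)) ^ m → 0`, contradiction.
-/

set_option autoImplicit false

open Finset Filter Topology

namespace Pool.Agent.H20.RO

/-- an integer `k ≠ 0` satisfies `1 ≤ |k| ‖k‖` -/
private theorem pMain_int {p : ℕ} [hp : Fact p.Prime] {k : ℤ} (hk : k ≠ 0) :
    1 ≤ |(k : ℝ)| * ‖(k : ℚ_[p])‖ := by
  have h1 : ‖(k : ℚ_[p])‖ = ((p : ℝ) ^ (padicValInt p k))⁻¹ := by
    have h2 : ‖(((k : ℚ)) : ℚ_[p])‖ = ((padicNorm p (k : ℚ) : ℚ) : ℝ) := Padic.eq_padicNorm _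
    have h3 : (((k : ℚ)) : ℚ_[p]) = (k : ℚ_[p]) := by push_cast; rfl
    rw [h3] at h2
    rw [h2, padicNorm.eq_zpow_of_nonzero (by exact_mod_cast hk), padicValRat.of_int]
    push_cast
    rw [zpow_neg, zpow_natCast]
  have hpos : (0 : ℝ) < (p : ℝ) ^ (padicValInt p k) := by
    have := hp.out.pos
    positivity
  rw [h1, ← div_eq_mul_inv, le_div_iff₀ hpos, one_mul]
  have h4 : ((p : ℤ) ^ (padicValInt p k)) ∣ k := padicValInt_dvd k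
  have h5 : ((p : ℤ) ^ (padicValInt p k)) ≤ |k| := Int.le_of_dvd (abs_pos.2 hk) ((dvd_abs _ _).2 h4)
  have h6 : (((p : ℤ) ^ (padicValInt p k) : ℤ) : ℝ) ≤ ((|k| : ℤ) : ℝ) := by exact_mod_cast h5
  push_cast at h6
  exact h6

private theorem pMain_t {t : ℚ} (ht : t.den ≠ 1) : t ^ 2 ≠ 4 := by
  intro h
  have h1 : (t - 2) * (t + 2) = 0 := by linear_combination h
  rcases mul_eq_zero.1 h1 with h2 | h2
  · apply ht
    have h3 : t = 2 := by linarith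
    rw [h3]
    rfl
  · apply ht
    have h3 : t = -2 := by linarith
    rw [h3]
    rfl

theorem pad_core {t R2 W2 : ℚ} (ht : t.den ≠ 1) (hR : 0 < R2) (hW : 0 < W2) {y s : ℕ → ℚ}
    (hy : ∀ n, y (n + 2) = t * y (n + 1) - y n) (hs : ∀ n, s n ^ 2 = R2 + W2 - y n)
    (hbd : ∃ C : ℝ, ∀ n, |(s n : ℝ)| ≤ C)
    (hdisc : y 1 ^ 2 - t * y 0 * y 1 + y 0 ^ 2 = (4 - t ^ 2) * (R2 * W2)) : R2 = W2 := by
  by_contra hRW
  obtain ⟨p, hp, z, hz0, hz1, hz⟩ := p_root ht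
  obtain ⟨σ, a, b, s', m0, hσ, hab, habs, hsum⟩ :=
    p_fac hz0 hz1 hz (pMain_t ht) hR hW hRW hy hs hdisc
  obtain ⟨C, hC⟩ := hbd
  obtain ⟨N, hN, hNi⟩ := rot_int hy hs
  have hB : 0 < t.den := t.den_pos
  have hzpos : 0 < ‖z‖ := norm_pos_iff.2 hz0
  -- integrality and boundedness of `s'`
  have hsi : ∀ n, ∃ k : ℤ, (N : ℚ) * (t.den : ℚ) ^ n * s' n = k := by
    intro n
    obtain ⟨k, hk⟩ := hNi n
    rcases abs_eq_abs.1 (habs n) with h | h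
    · exact ⟨k, by rw [h, hk]⟩
    · exact ⟨-k, by rw [h]; push_cast; rw [← hk]; ring⟩
  have hsb : ∀ n, |(s' n : ℝ)| ≤ C := by
    intro n
    have h : |(s' n : ℝ)| = |(s (2 * n) : ℝ)| := by exact_mod_cast congrArg (fun x : ℚ => (x : ℝ)) (habs n)
    rw [h]
    exact hC _
  -- choice of `L`
  obtain ⟨L, hL1, hLB, hLc⟩ : ∃ L : ℕ, 1 ≤ L ∧ (t.den : ℝ) * ‖z‖ ^ (2 * L + 1) < 1 ∧
      cc a b (L + 1) ≠ 0 := by
    have h1 : Tendsto (fun L : ℕ => (t.den : ℝ) * ‖z‖ ^ L) atTop (𝓝 ((t.den : ℝ) * 0)) :=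
      (tendsto_pow_atTop_nhds_zero_of_lt_one hzpos.le hz1).const_mul _
    rw [mul_zero] at h1
    obtain ⟨L0, hL0⟩ := eventually_atTop.1 (h1.eventually_lt_const zero_lt_one)
    obtain ⟨l, hl, hc⟩ := cc_inf hab (L0 + 2)
    refine ⟨l - 1, by omega, hL0 _ (by omega), ?_⟩
    rw [Nat.sub_add_cancel (by omega)]
    exact hc
  obtain ⟨Q, hQ0, hQ1⟩ := kill_p hz0 hz1 hz hL1
  obtain ⟨Bq, hBq0, hBq⟩ := eval_bound (K := ℚ_[p]) Q
  set v : ℕ → ℚ_[p] := fun l => z ^ (2 * l) * z⁻¹ with hv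
  set f : ℕ → ℚ_[p] := fun l => σ * cc a b l * Q.eval₂ (Rat.castHom ℚ_[p]) (v l) with hf
  have hf0 : ∀ l < L + 1, f l = 0 := by
    intro l hl
    simp only [hf, hv]
    rw [hQ0 l (by omega), mul_zero]
  have hf1 : f (L + 1) ≠ 0 := mul_ne_zero (mul_ne_zero hσ hLc) hQ1
  set M : ℝ := max ‖a‖ ‖b‖ with hM
  have hM0 : 0 ≤ M := (norm_nonneg a).trans (le_max_left _ _)
  have hfb : ∀ l, ‖f l‖ ≤ (‖σ‖ * Bq) * (8 * M) ^ l := by
    intro l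
    rcases Nat.eq_zero_or_pos l with h0 | h0
    · rw [hf0 l (by omega), norm_zero]
      positivity
    · have h1 : ‖v l‖ ≤ 1 := by
        have h2 : v l = z ^ (2 * l - 1) := by
          simp only [hv]
          have h3 : 2 * l = (2 * l - 1) + 1 := by omega
          conv_lhs => rw [h3, pow_succ]
          rw [mul_assoc, mul_inv_cancel₀ hz0, mul_one]
        rw [h2, norm_pow]
        exact pow_le_one₀ hzpos.le hz1.le
      have h2 := hBq _ h1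
      have h3 := cc_norm (he_padic p) (le_max_left ‖a‖ ‖b‖) (le_max_right ‖a‖ ‖b‖) l
      simp only [hf, norm_mul]
      calc ‖σ‖ * ‖cc a b l‖ * ‖Q.eval₂ (Rat.castHom ℚ_[p]) (v l)‖
          ≤ ‖σ‖ * (8 * M) ^ l * Bq := by
            refine mul_le_mul (mul_le_mul_of_nonneg_left h3 (norm_nonneg _)) h2 (norm_nonneg _) ?_
            positivity
        _ = (‖σ‖ * Bq) * (8 * M) ^ l := by ring
  have hx1 : ‖z ^ 2‖ < 1 := by
    rw [norm_pow]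
    exact pow_lt_one₀ hzpos.le hz1 (by norm_num)
  obtain ⟨n0, hn0⟩ := lead (by positivity : (0 : ℝ) ≤ 8 * M) hfb hf0 hf1 (pow_ne_zero 2 hz0) hx1
  -- the values of `app Q s'`
  have hV : ∀ m ≥ m0 + n0, app Q s' m ≠ 0 ∧
      ‖((app Q s' m : ℚ) : ℚ_[p])‖ ≤ 2 * ‖f (L + 1)‖ * (‖z‖ ^ (2 * L + 1)) ^ m := by
    intro m hm
    have h1 := app_hasSum Q s' (fun l => σ * cc a b l) v m
      (fun k => hsum (m + k) (by omega))
    have h2 := h1.mul_right (z ^ m)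
    have h3 : HasSum (fun l => f l * ((z ^ 2) ^ m) ^ l) (((app Q s' m : ℚ) : ℚ_[p]) * z ^ m) := by
      refine h2.congr_fun fun l => ?_
      simp only [hf, hv]
      have h4 : (z ^ (2 * l) * z⁻¹) ^ m * z ^ m = ((z ^ 2) ^ m) ^ l := by
        rw [← mul_pow, mul_assoc, inv_mul_cancel₀ hz0, mul_one, ← pow_mul, ← pow_mul, ← pow_mul]
        congr 1
        ring
      rw [← h4]
      ring
    obtain ⟨h5, h6⟩ := hn0 m (by omega) _ h3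
    constructor
    · intro h7
      apply h5
      rw [h7, Rat.cast_zero, zero_mul]
    · rw [norm_mul, norm_pow, norm_pow] at h6
      have h8 : ((‖z‖ ^ 2) ^ m) ^ (L + 1) = (‖z‖ ^ (2 * L + 1)) ^ m * ‖z‖ ^ m := by
        rw [← mul_pow, ← pow_succ, ← pow_mul, ← pow_mul, ← pow_mul]
        congr 1
        ring
      rw [h8, ← mul_assoc] at h6
      exact le_of_mul_le_mul_right h6 (pow_pos hzpos m)
  obtain ⟨M', hM', hMi⟩ := app_int Q hN hB hsi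
  obtain ⟨C', hC'0, hC'⟩ := app_bound Q hsb
  -- the main inequality
  have key : ∀ m ≥ m0 + n0, 1 ≤ ((M' : ℝ) * C' * (2 * ‖f (L + 1)‖)) *
      ((t.den : ℝ) * ‖z‖ ^ (2 * L + 1)) ^ m := by
    intro m hm
    obtain ⟨k, hk⟩ := hMi m
    obtain ⟨h1, h2⟩ := hV m hm
    have hk0 : k ≠ 0 := by
      intro h3
      rw [h3, Int.cast_zero] at hk
      have h4 : (M' : ℚ) ≠ 0 := by exact_mod_cast hM'.ne'
      have h5 : ((t.den : ℚ)) ^ m ≠ 0 := pow_ne_zero _ (by exact_mod_cast hB.ne')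
      exact (mul_ne_zero (mul_ne_zero h4 h5) h1) hk
    have h3 := pMain_int (p := p) hk0
    have h4 : |(k : ℝ)| ≤ (M' : ℝ) * (t.den : ℝ) ^ m * C' := by
      have h5 : (k : ℝ) = (M' : ℝ) * (t.den : ℝ) ^ m * (app Q s' m : ℝ) := by
        exact_mod_cast congrArg (fun x : ℚ => (x : ℝ)) hk.symm
      rw [h5, abs_mul, abs_of_nonneg (by positivity : (0 : ℝ) ≤ (M' : ℝ) * (t.den : ℝ) ^ m)]
      exact mul_le_mul_of_nonneg_left (hC' m) (by positivity)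
    have h6 : ‖(k : ℚ_[p])‖ ≤ 2 * ‖f (L + 1)‖ * (‖z‖ ^ (2 * L + 1)) ^ m := by
      have h5 : (k : ℚ_[p]) = (M' : ℚ_[p]) * (t.den : ℚ_[p]) ^ m * ((app Q s' m : ℚ) : ℚ_[p]) := by
        have h7 := congrArg (fun x : ℚ => (x : ℚ_[p])) hk.symm
        push_cast at h7
        exact h7
      rw [h5, norm_mul, norm_mul, norm_pow]
      have h8 : ‖(M' : ℚ_[p])‖ ≤ 1 := by
        have := Padic.norm_int_le_one (p := p) (M' : ℤ)
        simpa using this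
      have h9 : ‖(t.den : ℚ_[p])‖ ≤ 1 := by
        have := Padic.norm_int_le_one (p := p) (t.den : ℤ)
        simpa using this
      have h10 : ‖(M' : ℚ_[p])‖ * ‖(t.den : ℚ_[p])‖ ^ m ≤ 1 := by
        calc ‖(M' : ℚ_[p])‖ * ‖(t.den : ℚ_[p])‖ ^ m ≤ 1 * 1 :=
              mul_le_mul h8 (pow_le_one₀ (norm_nonneg _) h9) (by positivity) zero_le_one
          _ = 1 := one_mul 1
      calc ‖(M' : ℚ_[p])‖ * ‖(t.den : ℚ_[p])‖ ^ m * ‖((app Q s' m : ℚ) : ℚ_[p])‖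
          ≤ 1 * ‖((app Q s' m : ℚ) : ℚ_[p])‖ := mul_le_mul_of_nonneg_right h10 (norm_nonneg _)
        _ ≤ _ := by rw [one_mul]; exact h2
    calc (1 : ℝ) ≤ |(k : ℝ)| * ‖(k : ℚ_[p])‖ := h3
      _ ≤ ((M' : ℝ) * (t.den : ℝ) ^ m * C') * (2 * ‖f (L + 1)‖ * (‖z‖ ^ (2 * L + 1)) ^ m) :=
          mul_le_mul h4 h6 (norm_nonneg _) (by positivity)
      _ = _ := by rw [mul_pow]; ring
  have hlim : Tendsto (fun m : ℕ => ((M' : ℝ) * C' * (2 * ‖f (L + 1)‖)) *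
      ((t.den : ℝ) * ‖z‖ ^ (2 * L + 1)) ^ m) atTop
      (𝓝 (((M' : ℝ) * C' * (2 * ‖f (L + 1)‖)) * 0)) :=
    (tendsto_pow_atTop_nhds_zero_of_lt_one (by positivity) hLB).const_mul _
  rw [mul_zero] at hlim
  obtain ⟨m1, hm1⟩ := eventually_atTop.1 (hlim.eventually_lt_const zero_lt_one)
  have h1 := key (max (m0 + n0) m1) (le_max_left _ _)
  have h2 := hm1 (max (m0 + n0) m1) (le_max_right _ _)
  linarith

end Pool.Agent.H20.RO
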