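import Pool.Agent.H20.RO.Defs

/-!
# Module PRoot: a root in the p-adic numbers

PROOF. Let `p` be a prime factor of `t.den` (`Nat.exists_prime_and_dvd`), `t = A / B`, `A = t.num`, `B = t.den`, `p ∤ A` (`t.reduced`). `F = C B * X² - C A * X + C B ∈ ℤ_[p][X]`: `F(0) = B`, `‖B‖ < 1`, `F'(0) = -A`, `‖A‖ = 1`. `hensels_lemma` with `a = 0`: `z ∈ ℤ_[p]`, `F(z) = 0`, `‖z‖ < 1`; divide by `B ≠ 0`; `z ≠ 0` because `F(0) = B ≠ 0`.
-/

set_option autoImplicit false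

open Finset Filter Topology

namespace Pool.Agent.H20.RO

theorem p_root {t : ℚ} (ht : t.den ≠ 1) : ∃ (p : ℕ) (_ : Fact p.Prime) (z : ℚ_[p]),
    z ≠ 0 ∧ ‖z‖ < 1 ∧ z ^ 2 - (t : ℚ_[p]) * z + 1 = 0 := by
  obtain ⟨p, hp, hpd⟩ := Nat.exists_prime_and_dvd ht
  haveI hF : Fact p.Prime := ⟨hp⟩
  refine ⟨p, hF, ?_⟩
  have hB0 : (t.den : ℚ_[p]) ≠ 0 := by
    exact_mod_cast t.den_nz
  have hA : ¬ (p : ℤ) ∣ t.num := by
    intro h
    have h1 : p ∣ t.num.natAbs := by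
      have := Int.natAbs_dvd_natAbs.mpr h
      simpa using this
    have h2 : p ∣ Nat.gcd t.num.natAbs t.den := Nat.dvd_gcd h1 hpd
    rw [t.reduced] at h2
    exact hp.one_lt.ne' (Nat.dvd_one.mp h2)
  set F : Polynomial ℤ_[p] := Polynomial.C (t.den : ℤ_[p]) * Polynomial.X ^ 2
    - Polynomial.C (t.num : ℤ_[p]) * Polynomial.X + Polynomial.C (t.den : ℤ_[p]) with hFdef
  have hF0 : F.aeval (0 : ℤ_[p]) = (t.den : ℤ_[p]) := by
    simp [hFdef]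
  have hF1 : F.derivative.aeval (0 : ℤ_[p]) = - (t.num : ℤ_[p]) := by
    simp [hFdef]
  have hnB : ‖(t.den : ℤ_[p])‖ < 1 := by
    have : (t.den : ℤ_[p]) = ((t.den : ℤ) : ℤ_[p]) := by push_cast; rfl
    rw [this, PadicInt.norm_intCast_lt_one_iff]
    exact_mod_cast hpd
  have hnA : ‖(- (t.num : ℤ_[p]))‖ = 1 := by
    rw [norm_neg]
    rw [PadicInt.norm_intCast_eq_one_iff]
    exact (Int.isCoprime_iff_gcd_eq_one.mpr (by
      rw [Int.gcd_comm]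
      rw [← Int.isCoprime_iff_gcd_eq_one]
      exact ((Nat.prime_iff_prime_int.mp hp).coprime_iff_not_dvd).mpr hA))
  obtain ⟨z, hz0, hz1, -, -⟩ := hensels_lemma (F := F) (a := (0 : ℤ_[p])) (by
    rw [hF0, hF1, hnA]; simpa using hnB)
  rw [hF1, hnA, sub_zero] at hz1
  have hz2 : (t.den : ℤ_[p]) * z ^ 2 - (t.num : ℤ_[p]) * z + (t.den : ℤ_[p]) = 0 := by
    simpa [hFdef] using hz0
  have hz3 : (t.den : ℚ_[p]) * (z : ℚ_[p]) ^ 2 - (t.num : ℚ_[p]) * (z : ℚ_[p])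
      + (t.den : ℚ_[p]) = 0 := by
    have := congrArg (fun x : ℤ_[p] => (x : ℚ_[p])) hz2
    push_cast at this
    exact this
  refine ⟨(z : ℚ_[p]), ?_, ?_, ?_⟩
  · intro h
    rw [h] at hz3
    apply hB0
    simpa using hz3
  · simpa using hz1
  · have ht' : (t : ℚ_[p]) = (t.num : ℚ_[p]) / (t.den : ℚ_[p]) := by
      exact Rat.cast_def t
    rw [ht']
    field_simp
    linear_combination hz3

end Pool.Agent.H20.RO
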