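import Pool.Agent.H20.RO.App

/-!
# Module RInt: denominators, real ratio

PROOF. `s n ^ 2 = A - B λ ^ n + C λ ^ (2 n)`, `A = ‖p‖²`, `B = 2 Re (p conj q)`, `C = ‖q‖²` real. `A, B, C` are rational: with `u n = s n ^ 2`: `u 0 - u 1 = (1 - λ) (-B + C (1 + λ))`, `u 1 - u 2 = λ (1 - λ) (-B + C λ (1 + λ))`, `λ ≠ 0, 1, -1`, so `C (1 + λ) (1 - λ)`, hence
`C`, then `B`, then `A` are rational. Let `N0 > 0` be a common denominator of `A, B, C` and `λ = a / d`, `d = λ.den`. `(N0 d ^ n s n)² = N0 (N0 A d ^ (2n) - N0 B a ^ n d ^ n + N0 C a ^ (2n))` is an integer, so `N0 d ^ n s n` is an integer (`int_of_sq`).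
-/

set_option autoImplicit false

open Finset Filter Topology

namespace Pool.Agent.H20.RO

/-- Expansion of the squared norm. -/
private theorem rint_expand (x : ℝ) (p q : ℂ) :
    ‖p - (x : ℂ) * q‖ ^ 2
      = Complex.normSq p - 2 * (p * (starRingEnd ℂ) q).re * x + Complex.normSq q * x ^ 2 := by
  rw [Complex.sq_norm]
  simp only [Complex.normSq_apply, Complex.sub_re, Complex.sub_im, Complex.mul_re, Complex.mul_im,
    Complex.ofReal_re, Complex.ofReal_im, Complex.conj_re, Complex.conj_im]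
  ring

/-- The three coefficients are rational. -/
private theorem rint_coeffs {lam : ℚ} (h0 : lam ≠ 0) (h1 : |lam| < 1) {A B C : ℝ} {u : ℕ → ℚ}
    (h : ∀ n : ℕ, ((u n : ℚ) : ℝ) = A - B * (lam : ℝ) ^ n + C * ((lam : ℝ) ^ n) ^ 2) :
    ∃ a b c : ℚ, A = a ∧ B = b ∧ C = c := by
  have hl1 : (1 : ℝ) - lam ≠ 0 := by
    have : (lam : ℝ) < 1 := by exact_mod_cast (abs_lt.mp h1).2
    linarith
  have hl2 : (1 : ℝ) + lam ≠ 0 := by
    have : (-1 : ℝ) < (lam : ℝ) := by exact_mod_cast (abs_lt.mp h1).1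
    linarith
  have hl0 : (lam : ℝ) ≠ 0 := by exact_mod_cast h0
  have e0 := h 0
  have e1 := h 1
  have e2 := h 2
  simp only [pow_zero, pow_one, mul_one, one_pow] at e0 e1 e2
  have hC : C = (((((u 0 - u 1) / (1 - lam) - (u 1 - u 2) / (lam * (1 - lam)))
      / ((1 + lam) * (1 - lam))) : ℚ) : ℝ) := by
    push_cast
    rw [e0, e1, e2]
    field_simp
    ring
  have hB : B = ((((((u 0 - u 1) / (1 - lam) - (u 1 - u 2) / (lam * (1 - lam)))
      / ((1 + lam) * (1 - lam))) * (1 + lam) - (u 0 - u 1) / (1 - lam)) : ℚ) : ℝ) := by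
    rw [Rat.cast_sub, Rat.cast_mul, ← hC]
    push_cast
    rw [e0, e1]
    field_simp
    ring
  refine ⟨u 0 + ((((u 0 - u 1) / (1 - lam) - (u 1 - u 2) / (lam * (1 - lam)))
      / ((1 + lam) * (1 - lam))) * (1 + lam) - (u 0 - u 1) / (1 - lam))
      - (((u 0 - u 1) / (1 - lam) - (u 1 - u 2) / (lam * (1 - lam)))
      / ((1 + lam) * (1 - lam))), _, _, ?_, hB, hC⟩
  rw [Rat.cast_sub, Rat.cast_add, ← hC, ← hB, e0]
  ring

private theorem rint_den_mul (x : ℚ) : (x.den : ℚ) * x = x.num := by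
  rw [mul_comm]
  exact Rat.mul_den_eq_num x

theorem real_int {lam : ℚ} (h0 : lam ≠ 0) (h1 : |lam| < 1) {p q : ℂ} {s : ℕ → ℚ}
    (h : ∀ n : ℕ, ‖p - (((lam ^ n : ℚ)) : ℂ) * q‖ = s n) :
    ∃ N : ℕ, 0 < N ∧ ∀ n, ∃ k : ℤ, (N : ℚ) * (lam.den : ℚ) ^ n * s n = k := by
  classical
  obtain ⟨a, b, c, ha, hb, hc⟩ := rint_coeffs (u := fun n => s n ^ 2) (A := Complex.normSq p)
    (B := 2 * (p * (starRingEnd ℂ) q).re) (C := Complex.normSq q) h0 h1 (by
      intro n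
      have e := h n
      have e2 := rint_expand ((lam : ℝ) ^ n) p q
      have e3 : ((((lam : ℝ) ^ n : ℝ)) : ℂ) = (((lam ^ n : ℚ)) : ℂ) := by push_cast; rfl
      rw [e3, e] at e2
      push_cast
      rw [e2])
  have hs : ∀ n, s n ^ 2 = a - b * lam ^ n + c * (lam ^ n) ^ 2 := by
    intro n
    have e := h n
    have e2 := rint_expand ((lam : ℝ) ^ n) p q
    have e3 : ((((lam : ℝ) ^ n : ℝ)) : ℂ) = (((lam ^ n : ℚ)) : ℂ) := by push_cast; rfl
    rw [e3, e, ha, hb, hc] at e2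
    exact_mod_cast e2
  refine ⟨a.den * b.den * c.den, Nat.mul_pos (Nat.mul_pos a.den_pos b.den_pos) c.den_pos, ?_⟩
  intro n
  have hl : (lam.den : ℚ) ^ n * lam ^ n = (lam.num : ℚ) ^ n := by
    rw [← mul_pow, rint_den_mul]
  apply int_of_sq (k := (a.den * b.den * c.den : ℤ) *
    (a.num * b.den * c.den * ((lam.den : ℤ) ^ n) ^ 2
      - a.den * b.num * c.den * (lam.num ^ n * (lam.den : ℤ) ^ n)
      + a.den * b.den * c.num * (lam.num ^ n) ^ 2))
  push_cast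
  rw [mul_pow, mul_pow, hs n, ← hl, ← rint_den_mul a, ← rint_den_mul b, ← rint_den_mul c]
  ring

end Pool.Agent.H20.RO
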