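import Pool.Agent.H20.RO.RInt
import Pool.Agent.H20.RO.Ser
import Pool.Agent.H20.RO.Cc
import Pool.Agent.H20.RO.Lead

/-!
# Module RMain: real ratio

PROOF. Suppose `Im (p conj q) ≠ 0`; so `p, q ≠ 0` and `c = q / p` is not real (`Im (q / p) = -Im (p conj q) / ‖p‖²`). Put `a = c / 4`, `b = conj c / 4`, `a ≠ b`. `s n = ‖p‖ ‖1 - c λ ^ n‖`. For `n ≥ n1` (`‖c‖ |λ| ^ n < 1`): `EE (a λ ^ n) EE (b λ ^ n) = ‖1 - c λ ^ n‖`
(`norm_EE`), so by `cc_sum`: `s n = ∑ ‖p‖ cc a b l (λ ^ n) ^ l = ∑ ‖p‖ cc a b l (λ ^ l) ^ n` (HasSum in `ℂ`). Let `d = λ.den`. Choose `m` with `d |λ| ^ m < 1` and `cc a b m ≠ 0` (`cc_inf`). `Q = ∏ l ∈ range m, (X - C (λ ^ l))`: `Q(λ ^ l) = 0` for `l < m`,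
`Q(λ ^ m) ≠ 0` (`|λ ^ l|` are different). `app_hasSum` (for `n ≥ n1`): `app Q s n = ∑ f l (λ ^ n) ^ l`, `f l = ‖p‖ cc a b l Q(λ ^ l)`, `‖f l‖ ≤ A R ^ l` with `R = 8 M` (`cc_norm`, `eval_bound`). `lead`: for `n ≥ n2`, `app Q s n ≠ 0` and
`|app Q s n| ≤ 2 ‖f m‖ |λ| ^ (m n)`. `real_int` and `app_int`: `M d ^ n app Q s n` is an integer, not `0`, so `1 ≤ M d ^ n |app Q s n| ≤ 2 M ‖f m‖ (d |λ| ^ m) ^ n → 0`, contradiction.
-/

set_option autoImplicit false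

open Finset Filter Topology

namespace Pool.Agent.H20.RO

private lemma RMain_ne {p q : ℂ} (him : (p * (starRingEnd ℂ) q).im ≠ 0) :
    p ≠ 0 ∧ (q / p) / 4 ≠ (starRingEnd ℂ) (q / p) / 4 := by
  have hp : p ≠ 0 := by
    rintro rfl
    simp at him
  refine ⟨hp, fun he => him ?_⟩
  have h4 : q / p = (starRingEnd ℂ) (q / p) := by
    have h5 : q / p / 4 * 4 = (starRingEnd ℂ) (q / p) / 4 * 4 := by rw [he]
    simpa using h5
  have him2 : (q / p).im = 0 := Complex.conj_eq_iff_im.1 h4.symm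
  have hq : q = q / p * p := by field_simp
  have h6 : p * (starRingEnd ℂ) q = (starRingEnd ℂ) (q / p) * ((‖p‖ ^ 2 : ℝ) : ℂ) := by
    conv_lhs => rw [hq]
    rw [map_mul]
    have h7 : p * (starRingEnd ℂ) p = ((‖p‖ ^ 2 : ℝ) : ℂ) := by
      rw [Complex.mul_conj, Complex.normSq_eq_norm_sq]
    calc p * ((starRingEnd ℂ) (q / p) * (starRingEnd ℂ) p)
        = (starRingEnd ℂ) (q / p) * (p * (starRingEnd ℂ) p) := by ring
      _ = _ := by rw [h7]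
  rw [h6, ← h4, Complex.im_mul_ofReal, him2, zero_mul]

private lemma RMain_sum {c : ℂ} {x : ℝ} (hx : ‖c‖ * |x| < 1) :
    HasSum (fun l => cc (c / 4) ((starRingEnd ℂ) c / 4) l * (x : ℂ) ^ l)
      ((‖1 - c * x‖ : ℝ) : ℂ) := by
  have hn : ‖(x : ℂ)‖ = |x| := by rw [Complex.norm_real, Real.norm_eq_abs]
  have h4 : ‖(4 : ℂ)‖ = 4 := by simp
  have ha : 4 * ‖c / 4 * (x : ℂ)‖ < 1 := by
    rw [norm_mul, norm_div, h4, hn]
    linarith
  have hb : 4 * ‖(starRingEnd ℂ) c / 4 * (x : ℂ)‖ < 1 := by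
    rw [norm_mul, norm_div, h4, hn, Complex.norm_conj]
    linarith
  have h := cc_sum he_complex ha hb
  have hc : (starRingEnd ℂ) c / 4 * (x : ℂ) = (starRingEnd ℂ) (c / 4 * (x : ℂ)) := by
    rw [map_mul, map_div₀, Complex.conj_ofReal]
    congr 2
    exact (Complex.conj_ofNat 4).symm
  rw [hc, norm_EE ha] at h
  have he : 1 - 4 * (c / 4 * (x : ℂ)) = 1 - c * x := by ring
  rwa [he] at h

theorem real_ratio {lam : ℚ} (h0 : lam ≠ 0) (h1 : |lam| < 1) {p q : ℂ}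
    (h : ∀ n : ℕ, ∃ r : ℚ, ‖p - (((lam ^ n : ℚ)) : ℂ) * q‖ = r) :
    (p * (starRingEnd ℂ) q).im = 0 := by
  by_contra him
  choose s hs using h
  obtain ⟨hp, hab⟩ := RMain_ne him
  have hnx : ‖(lam : ℂ)‖ = |(lam : ℝ)| := by
    rw [← Complex.ofReal_ratCast, Complex.norm_real, Real.norm_eq_abs]
  have hL1 : |(lam : ℝ)| < 1 := by exact_mod_cast h1
  have hL0 : (lam : ℂ) ≠ 0 := by exact_mod_cast h0
  have hR0 : 0 < |(lam : ℝ)| := by
    rw [abs_pos]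
    exact_mod_cast h0
  have hx1 : ‖(lam : ℂ)‖ < 1 := by rw [hnx]; exact hL1
  have htend : ∀ A : ℝ, Tendsto (fun n : ℕ => A * |(lam : ℝ)| ^ n) atTop (𝓝 0) := fun A => by
    have := (tendsto_pow_atTop_nhds_zero_of_lt_one (abs_nonneg (lam : ℝ)) hL1).const_mul A
    simpa using this
  obtain ⟨n1, hn1⟩ := Filter.eventually_atTop.1
    ((htend ‖q / p‖).eventually_lt_const (show (0 : ℝ) < 1 by norm_num))
  obtain ⟨L, hL⟩ := Filter.eventually_atTop.1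
    ((htend (lam.den : ℝ)).eventually_lt_const (show (0 : ℝ) < 1 by norm_num))
  obtain ⟨m, hm, hcm⟩ := cc_inf hab L
  have hdm := hL m hm
  -- the series of s n
  have hser : ∀ n ≥ n1, HasSum (fun l => ((‖p‖ : ℂ) *
      cc (q / p / 4) ((starRingEnd ℂ) (q / p) / 4) l) * ((lam : ℂ) ^ l) ^ n) ((s n : ℚ) : ℂ) := by
    intro n hn
    have hlt : ‖q / p‖ * |(lam : ℝ) ^ n| < 1 := by
      rw [abs_pow]
      exact hn1 n hn
    have h2 := (RMain_sum hlt).mul_left (‖p‖ : ℂ)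
    have e1 : (‖p‖ : ℂ) * ((‖1 - q / p * (((lam : ℝ) ^ n : ℝ) : ℂ)‖ : ℝ) : ℂ) =
        ((s n : ℚ) : ℂ) := by
      have h3 : ‖p‖ * ‖1 - q / p * (((lam : ℝ) ^ n : ℝ) : ℂ)‖ = (s n : ℝ) := by
        rw [← norm_mul, ← hs n]
        congr 1
        push_cast
        field_simp
      rw [← Complex.ofReal_mul, h3, Complex.ofReal_ratCast]
    rw [e1] at h2
    refine h2.congr_fun ?_ |> fun h => h
    intro l
    push_cast
    rw [← pow_mul, ← pow_mul, mul_comm l n]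
    ring
  set Q : Polynomial ℚ := ∏ l ∈ range m, (Polynomial.X - Polynomial.C (lam ^ l)) with hQ
  have hQe : ∀ z : ℂ, Q.eval₂ (Rat.castHom ℂ) z = ∏ l ∈ range m, (z - (lam : ℂ) ^ l) := by
    intro z
    rw [hQ, Polynomial.eval₂_finsetProd]
    refine Finset.prod_congr rfl fun l _ => ?_
    rw [Polynomial.eval₂_sub, Polynomial.eval₂_X, Polynomial.eval₂_C, Rat.coe_castHom]
    push_cast
    rfl
  obtain ⟨B, hB0, hB⟩ := eval_bound (K := ℂ) Q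
  obtain ⟨N, hN, hNs⟩ := real_int h0 h1 hs
  obtain ⟨M, hM, hMs⟩ := app_int Q hN lam.pos hNs
  set f : ℕ → ℂ := fun l => ((‖p‖ : ℂ) * cc (q / p / 4) ((starRingEnd ℂ) (q / p) / 4) l) *
    Q.eval₂ (Rat.castHom ℂ) ((lam : ℂ) ^ l) with hf
  have h4 : ‖(4 : ℂ)‖ = 4 := by simp
  have hfb : ∀ l, ‖f l‖ ≤ ‖p‖ * B * (8 * (‖q / p‖ / 4)) ^ l := by
    intro l
    have h5 : ‖cc (q / p / 4) ((starRingEnd ℂ) (q / p) / 4) l‖ ≤ (8 * (‖q / p‖ / 4)) ^ l := by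
      refine cc_norm he_complex ?_ ?_ l
      · rw [norm_div, h4]
      · rw [norm_div, h4, Complex.norm_conj]
    have h6 : ‖Q.eval₂ (Rat.castHom ℂ) ((lam : ℂ) ^ l)‖ ≤ B := by
      refine hB _ ?_
      rw [norm_pow]
      exact pow_le_one₀ (norm_nonneg _) hx1.le
    rw [hf]
    simp only [norm_mul, Complex.norm_real, norm_norm]
    have h7 : 0 ≤ (8 * (‖q / p‖ / 4)) ^ l := by positivity
    calc ‖p‖ * ‖cc (q / p / 4) ((starRingEnd ℂ) (q / p) / 4) l‖ *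
          ‖Q.eval₂ (Rat.castHom ℂ) ((lam : ℂ) ^ l)‖
        ≤ ‖p‖ * (8 * (‖q / p‖ / 4)) ^ l * B := by
          refine mul_le_mul (mul_le_mul_of_nonneg_left h5 (norm_nonneg _)) h6 (norm_nonneg _) ?_
          positivity
      _ = _ := by ring
  have hf0 : ∀ l < m, f l = 0 := by
    intro l hl
    rw [hf]
    simp only
    rw [hQe, Finset.prod_eq_zero (mem_range.2 hl) (sub_self _), mul_zero]
  have hfm : f m ≠ 0 := by
    rw [hf]
    simp only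
    refine mul_ne_zero (mul_ne_zero ?_ hcm) ?_
    · exact_mod_cast norm_ne_zero_iff.2 hp
    · rw [hQe, Finset.prod_ne_zero_iff]
      intro l hl he
      have h8 : ‖(lam : ℂ) ^ m‖ = ‖(lam : ℂ) ^ l‖ := by rw [sub_eq_zero.1 he]
      rw [norm_pow, norm_pow, hnx] at h8
      have h9 : |(lam : ℝ)| ^ m < |(lam : ℝ)| ^ l :=
        pow_lt_pow_right_of_lt_one₀ hR0 hL1 (mem_range.1 hl)
      linarith
  obtain ⟨n2, hn2⟩ := lead (R := 8 * (‖q / p‖ / 4)) (by positivity) hfb hf0 hfm hL0 hx1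
  have hlim : Tendsto (fun n : ℕ => (M : ℝ) * (2 * ‖f m‖) *
      ((lam.den : ℝ) * |(lam : ℝ)| ^ m) ^ n) atTop (𝓝 0) := by
    have h10 := (tendsto_pow_atTop_nhds_zero_of_lt_one
      (show (0 : ℝ) ≤ (lam.den : ℝ) * |(lam : ℝ)| ^ m by positivity) hdm).const_mul
      ((M : ℝ) * (2 * ‖f m‖))
    simpa using h10
  obtain ⟨n3, hn3⟩ := Filter.eventually_atTop.1
    (hlim.eventually_lt_const (show (0 : ℝ) < 1 by norm_num))
  obtain ⟨n, e1, e2, e3⟩ : ∃ n, n1 ≤ n ∧ n2 ≤ n ∧ n3 ≤ n :=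
    ⟨n1 + n2 + n3, by omega, by omega, by omega⟩
  have hsum : HasSum (fun l => f l * ((lam : ℂ) ^ n) ^ l) ((app Q s n : ℚ) : ℂ) := by
    have h11 := app_hasSum (K := ℂ) Q s
      (fun l => (‖p‖ : ℂ) * cc (q / p / 4) ((starRingEnd ℂ) (q / p) / 4) l)
      (fun l => (lam : ℂ) ^ l) n (fun k => hser (n + k) (by omega))
    have e4 : (fun l => f l * ((lam : ℂ) ^ n) ^ l) = fun l =>
        ((‖p‖ : ℂ) * cc (q / p / 4) ((starRingEnd ℂ) (q / p) / 4) l) *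
          Q.eval₂ (Rat.castHom ℂ) ((lam : ℂ) ^ l) * ((lam : ℂ) ^ l) ^ n := by
      funext l
      rw [hf]
      simp only
      rw [← pow_mul, ← pow_mul, mul_comm l n]
    rw [e4]
    exact h11
  obtain ⟨hv0, hvb⟩ := hn2 n e2 _ hsum
  obtain ⟨k, hk⟩ := hMs n
  have hk0 : k ≠ 0 := by
    rintro rfl
    have hM' : (M : ℚ) ≠ 0 := by exact_mod_cast hM.ne'
    have hd' : (lam.den : ℚ) ≠ 0 := by exact_mod_cast lam.pos.ne'
    have h12 : (app Q s n : ℚ) = 0 := by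
      rcases mul_eq_zero.1 (hk.trans Int.cast_zero) with h13 | h13
      · exact absurd h13 (mul_ne_zero hM' (pow_ne_zero _ hd'))
      · exact h13
    exact hv0 (by rw [h12]; simp)
  have hk1 : (1 : ℝ) ≤ |(k : ℝ)| := by
    have : (1 : ℤ) ≤ |k| := Int.one_le_abs hk0
    exact_mod_cast this
  have hkr : (k : ℝ) = (M : ℝ) * (lam.den : ℝ) ^ n * ((app Q s n : ℚ) : ℝ) := by
    have := congrArg (fun z : ℚ => (z : ℝ)) hk
    push_cast at this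
    exact this.symm
  have hnv : ‖((app Q s n : ℚ) : ℂ)‖ = |((app Q s n : ℚ) : ℝ)| := by
    rw [← Complex.ofReal_ratCast, Complex.norm_real, Real.norm_eq_abs]
  rw [hnv, hnx] at hvb
  rw [hkr, abs_mul, abs_of_nonneg (show (0 : ℝ) ≤ (M : ℝ) * (lam.den : ℝ) ^ n by positivity)] at hk1
  have h14 := hn3 n e3
  have h15 : (M : ℝ) * (lam.den : ℝ) ^ n * |((app Q s n : ℚ) : ℝ)| ≤
      (M : ℝ) * (lam.den : ℝ) ^ n * (2 * ‖f m‖ * (|(lam : ℝ)| ^ n) ^ m) :=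
    mul_le_mul_of_nonneg_left hvb (by positivity)
  have h16 : (M : ℝ) * (lam.den : ℝ) ^ n * (2 * ‖f m‖ * (|(lam : ℝ)| ^ n) ^ m) =
      (M : ℝ) * (2 * ‖f m‖) * ((lam.den : ℝ) * |(lam : ℝ)| ^ m) ^ n := by
    rw [mul_pow, ← pow_mul, ← pow_mul, mul_comm n m]
    ring
  linarith

end Pool.Agent.H20.RO
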