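import Pool.Agent.H20.RO.App

/-!
# Module SKil: rational polynomials that kill the low exponents

PROOFS. `tau_rat`: for `i ≤ j`: `λ ^ i λ̄ ^ j + λ ^ j λ̄ ^ i = (λ λ̄) ^ i (λ ^ (j - i) + λ̄ ^ (j - i))`, and `T n = λ ^ n + λ̄ ^ n` satisfies `T 0 = 2`, `T 1 = t`, `T (n + 2) = t T (n + 1) - r2 T n`; symmetric in `i, j`. `kill`: `Q = ∏ (i, j) ∈ range m ×ˢ range m with i + j < m, (X² - τ_ij X + r2 ^ (i + j))`; the factor at `μ` is
`(μ - λ ^ i λ̄ ^ j) (μ - λ ^ j λ̄ ^ i)`, it vanishes at `μ = λ ^ i λ̄ ^ j`, and only if `‖μ‖ = ‖λ‖ ^ (i + j)`.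
-/

set_option autoImplicit false

open Finset Filter Topology

namespace Pool.Agent.H20.RO

private theorem skil_T {lam : ℂ} {t r2 : ℚ} (ht : lam + (starRingEnd ℂ) lam = t)
    (hr : lam * (starRingEnd ℂ) lam = r2) (n : ℕ) :
    (∃ x : ℚ, lam ^ n + (starRingEnd ℂ) lam ^ n = x) ∧
      (∃ x : ℚ, lam ^ (n + 1) + (starRingEnd ℂ) lam ^ (n + 1) = x) := by
  induction n with
  | zero =>
    refine ⟨⟨2, ?_⟩, ⟨t, ?_⟩⟩
    · rw [pow_zero, pow_zero]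
      push_cast
      norm_num
    · rw [zero_add, pow_one, pow_one]
      exact ht
  | succ n ih =>
    obtain ⟨⟨x, hx⟩, ⟨y, hy⟩⟩ := ih
    refine ⟨⟨y, hy⟩, ⟨t * y - r2 * x, ?_⟩⟩
    push_cast
    rw [← ht, ← hr, ← hx, ← hy]
    ring

private theorem skil_aux {lam : ℂ} {t r2 : ℚ} (ht : lam + (starRingEnd ℂ) lam = t)
    (hr : lam * (starRingEnd ℂ) lam = r2) (i k : ℕ) :
    ∃ x : ℚ, lam ^ i * (starRingEnd ℂ) lam ^ (i + k) + lam ^ (i + k) * (starRingEnd ℂ) lam ^ i =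
      x := by
  obtain ⟨⟨x, hx⟩, -⟩ := skil_T ht hr k
  refine ⟨r2 ^ i * x, ?_⟩
  push_cast
  rw [← hr, ← hx, mul_pow]
  ring

theorem tau_rat {lam : ℂ} {t r2 : ℚ} (ht : lam + (starRingEnd ℂ) lam = t)
    (hr : lam * (starRingEnd ℂ) lam = r2) (i j : ℕ) :
    ∃ x : ℚ, lam ^ i * (starRingEnd ℂ) lam ^ j + lam ^ j * (starRingEnd ℂ) lam ^ i = x := by
  rcases le_total i j with h | h
  · obtain ⟨k, rfl⟩ := Nat.exists_eq_add_of_le h
    exact skil_aux ht hr i k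
  · obtain ⟨k, rfl⟩ := Nat.exists_eq_add_of_le h
    obtain ⟨x, hx⟩ := skil_aux ht hr j k
    exact ⟨x, by rw [← hx]; ring⟩

theorem kill {lam : ℂ} {t r2 : ℚ} (ht : lam + (starRingEnd ℂ) lam = t)
    (hr : lam * (starRingEnd ℂ) lam = r2) (m : ℕ) :
    ∃ Q : Polynomial ℚ,
      (∀ i j, i + j < m → Q.eval₂ (Rat.castHom ℂ) (lam ^ i * (starRingEnd ℂ) lam ^ j) = 0) ∧
      (∀ μ : ℂ, (∀ l < m, ‖μ‖ ≠ ‖lam‖ ^ l) → Q.eval₂ (Rat.castHom ℂ) μ ≠ 0) := by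
  choose τ hτ using fun p : ℕ × ℕ => tau_rat ht hr p.1 p.2
  have key : ∀ (p : ℕ × ℕ) (μ : ℂ), (Polynomial.X ^ 2 - Polynomial.C (τ p) * Polynomial.X +
      Polynomial.C (r2 ^ (p.1 + p.2))).eval₂ (Rat.castHom ℂ) μ =
      (μ - lam ^ p.1 * (starRingEnd ℂ) lam ^ p.2) * (μ - lam ^ p.2 * (starRingEnd ℂ) lam ^ p.1) := by
    intro p μ
    rw [Polynomial.eval₂_add, Polynomial.eval₂_sub, Polynomial.eval₂_mul, Polynomial.eval₂_C,
      Polynomial.eval₂_C, Polynomial.eval₂_X, Polynomial.eval₂_pow, Polynomial.eval₂_X]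
    have h1 : (Rat.castHom ℂ) (τ p) = (τ p : ℂ) := rfl
    have h2 : (Rat.castHom ℂ) (r2 ^ (p.1 + p.2)) = (r2 : ℂ) ^ (p.1 + p.2) := by
      rw [map_pow]
      rfl
    rw [h1, h2, ← hτ p, ← hr, mul_pow, pow_add, pow_add]
    ring
  have hn : ∀ i j : ℕ, ‖lam ^ i * (starRingEnd ℂ) lam ^ j‖ = ‖lam‖ ^ (i + j) := by
    intro i j
    rw [norm_mul, norm_pow, norm_pow, RCLike.norm_conj, pow_add]
  refine ⟨∏ p ∈ (range m ×ˢ range m).filter (fun p => p.1 + p.2 < m),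
    (Polynomial.X ^ 2 - Polynomial.C (τ p) * Polynomial.X +
      Polynomial.C (r2 ^ (p.1 + p.2))), ?_, ?_⟩
  · intro i j hij
    rw [Polynomial.eval₂_finsetProd]
    refine Finset.prod_eq_zero (i := (i, j)) ?_ ?_
    · rw [Finset.mem_filter, Finset.mem_product, Finset.mem_range, Finset.mem_range]
      exact ⟨⟨by omega, by omega⟩, hij⟩
    · rw [key, sub_self, zero_mul]
  · intro μ hμ
    rw [Polynomial.eval₂_finsetProd, Finset.prod_ne_zero_iff]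
    intro p hp
    rw [Finset.mem_filter] at hp
    rw [key]
    refine mul_ne_zero (sub_ne_zero.2 ?_) (sub_ne_zero.2 ?_)
    · intro h
      exact hμ _ hp.2 (by rw [h, hn])
    · intro h
      exact hμ _ hp.2 (by rw [h, hn, add_comm])

end Pool.Agent.H20.RO
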