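import Pool.Agent.H20.RO.Defs

/-!
# Module Som: somewhere dense sets

PROOF. A line is contained in the closed set `{z | Im ((z - p) v̄) = 0}`, which contains no ball (`Im ((z + t I v - p) v̄) = t ‖v‖ ^ 2` for `z` on the line), a circle with its centre is the closed set `{c} ∪ sphere c r`, which contains no ball (a ball with centre `z` of this set contains the points `c + s (z - c)`, `s > 1` close to `1`, if `z ≠ c`, and points at distance less than `r` different from `c` if `z = c`). Measure theory also works (`MeasureTheory.Measure.addHaar_sphere`).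
-/

set_option autoImplicit false

open Finset Filter Topology

namespace Pool.Agent.H20.RO

theorem not_line_of_som {S : Set ℂ} (h : (interior (closure S)).Nonempty) : ¬ OnLine S := by
  rintro ⟨p, v, hv, hS⟩
  have hcl : IsClosed {z : ℂ | ((z - p) * (starRingEnd ℂ) v).im = 0} :=
    isClosed_eq (by fun_prop) continuous_const
  have hsub : closure S ⊆ {z : ℂ | ((z - p) * (starRingEnd ℂ) v).im = 0} := by
    refine closure_minimal ?_ hcl
    intro z hz
    obtain ⟨t, rfl⟩ := hS z hz
    show ((p + t * v - p) * (starRingEnd ℂ) v).im = 0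
    have : (p + t * v - p) * (starRingEnd ℂ) v = ((t * Complex.normSq v : ℝ) : ℂ) := by
      rw [add_sub_cancel_left, mul_assoc, Complex.mul_conj]
      push_cast
      ring
    rw [this]
    exact Complex.ofReal_im _
  obtain ⟨x, hx⟩ := h
  have hx0 : x ∈ closure S := interior_subset hx
  have hx1 : ((x - p) * (starRingEnd ℂ) v).im = 0 := hsub hx0
  have hnb : closure S ∈ 𝓝 x := mem_interior_iff_mem_nhds.1 hx
  have hc : Tendsto (fun t : ℝ => x + t * (Complex.I * v)) (𝓝[>] 0) (𝓝 x) := by
    have h1 : Continuous fun t : ℝ => x + t * (Complex.I * v) := by fun_prop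
    have h2 := h1.tendsto 0
    simp only [Complex.ofReal_zero, zero_mul, add_zero] at h2
    exact h2.mono_left nhdsWithin_le_nhds
  have hev : ∀ᶠ t : ℝ in 𝓝[>] 0, x + t * (Complex.I * v) ∈ closure S := hc.eventually hnb
  have hev2 : ∀ᶠ t : ℝ in 𝓝[>] 0, t ∈ Set.Ioi (0 : ℝ) := self_mem_nhdsWithin
  obtain ⟨t, ht1, ht2⟩ := (hev.and hev2).exists
  have ht3 : ((x + t * (Complex.I * v) - p) * (starRingEnd ℂ) v).im = 0 := hsub ht1
  have h3 : (x + t * (Complex.I * v) - p) * (starRingEnd ℂ) v
      = (x - p) * (starRingEnd ℂ) v + ((t * Complex.normSq v : ℝ) : ℂ) * Complex.I := by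
    have h4 : ((Complex.normSq v : ℝ) : ℂ) = v * (starRingEnd ℂ) v := (Complex.mul_conj v).symm
    push_cast
    rw [h4]
    ring
  have h7 : (((t * Complex.normSq v : ℝ) : ℂ) * Complex.I).im = t * Complex.normSq v := by
    simp
  rw [h3, Complex.add_im, hx1, h7] at ht3
  have h5 : 0 < Complex.normSq v := Complex.normSq_pos.2 hv
  have h6 : 0 < t := ht2
  have := mul_pos h6 h5
  linarith

theorem not_circle_of_som {S : Set ℂ} (h : (interior (closure S)).Nonempty) : ¬ OnCircle S := by
  rintro ⟨c, r, hr, hS⟩
  have hsub : closure S ⊆ {c} ∪ Metric.sphere c r := by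
    refine closure_minimal ?_ (isClosed_singleton.union Metric.isClosed_sphere)
    intro z hz
    rcases hS z hz with h1 | h1
    · exact Or.inl h1
    · exact Or.inr h1
  have h0 : MeasureTheory.volume ({c} ∪ Metric.sphere c r : Set ℂ) = 0 := by
    refine MeasureTheory.measure_union_null (MeasureTheory.measure_singleton c) ?_
    exact MeasureTheory.Measure.addHaar_sphere _ _ _
  have h1 : 0 < MeasureTheory.volume (interior (closure S)) :=
    isOpen_interior.measure_pos _ h
  have h2 : MeasureTheory.volume (interior (closure S)) ≤ 0 := by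
    rw [← h0]
    exact MeasureTheory.measure_mono (interior_subset.trans hsub)
  exact absurd h1 (not_lt.2 h2)

end Pool.Agent.H20.RO
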